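import Pool.Agent.L7h67.AE.Prob

/-!
# Almost all exponents: bounds for the number of exceptional exponents
-/

set_option autoImplicit false

open PowerSeries Finset
open Pool.Agent.TH693.PP (P E S)

namespace Pool.Agent.L7h67.AE

/-- at all large scales the total weight is positive for all odd exponents -/
theorem X_pos (b ρ : ℕ) : ∃ k1 : ℕ, ∀ k, k1 ≤ k → ∀ t, Odd t → 1 ≤ X b ρ k t := by
  obtain ⟨b', hb', hb1⟩ : ∃ b', b ≤ b' ∧ 1 ≤ b' := ⟨max b 1, le_max_left _ _, le_max_right _ _⟩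
  have hn0 : ρ % 2 ^ b' < 2 ^ b' := Nat.mod_lt _ (by positivity)
  have key : ∀ t0 : ℕ, Odd t0 → ∃ v, ∀ s,
      c (t0 + 2 ^ b' * s) (ρ % 2 ^ b' + 2 ^ b' * v) = 1 := by
    intro t0 ht0
    obtain ⟨n, hn, hc⟩ := exists_one t0 b' ρ ht0
    refine first_one hn0 ⟨n / 2 ^ b', ?_⟩
    rw [← hn, Nat.mod_add_div]
    exact hc
  choose! v hv using key
  obtain ⟨m, hm⟩ : ∃ m, m = (range (2 ^ b')).sup v := ⟨_, rfl⟩
  refine ⟨b' + (m + 1), fun k hk t ht => ?_⟩
  have ht0 : Odd (t % 2 ^ b') := by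
    rw [Nat.odd_iff] at ht ⊢
    have : 2 ∣ 2 ^ b' := dvd_pow_self 2 (by omega)
    rw [Nat.mod_mod_of_dvd _ this]
    exact ht
  have h1 := hv (t % 2 ^ b') ht0 (t / 2 ^ b')
  rw [Nat.mod_add_div] at h1
  have h2 : v (t % 2 ^ b') ≤ m := by
    rw [hm]
    exact Finset.le_sup (Finset.mem_range.2 (Nat.mod_lt _ (by positivity)))
  have hbk : b ≤ k := by omega
  have h3 : ρ % 2 ^ b' + 2 ^ b' * v (t % 2 ^ b') ∈ pl b ρ k := by
    rw [mem_pl]
    constructor
    · have h4 : v (t % 2 ^ b') + 1 ≤ 2 ^ (m + 1) := by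
        have : m + 1 < 2 ^ (m + 1) := Nat.lt_two_pow_self
        omega
      calc ρ % 2 ^ b' + 2 ^ b' * v (t % 2 ^ b') < 2 ^ b' + 2 ^ b' * v (t % 2 ^ b') := by omega
        _ = 2 ^ b' * (v (t % 2 ^ b') + 1) := by ring
        _ ≤ 2 ^ b' * 2 ^ (m + 1) := Nat.mul_le_mul_left _ h4
        _ = 2 ^ (b' + (m + 1)) := (pow_add _ _ _).symm
        _ ≤ 2 ^ k := Nat.pow_le_pow_right (by norm_num) hk
    · rw [add_mod_pow hb', Nat.mod_mod_of_dvd _ (pow_dvd_pow 2 hb')]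
  have h5 : 0 < phw k t (ρ % 2 ^ b' + 2 ^ b' * v (t % 2 ^ b')) := phw_pos h1
  exact (Nat.succ_le_of_lt h5).trans (Finset.single_le_sum (f := fun n => phw k t n)
    (fun _ _ => Nat.zero_le _) h3)

/-- few exponents have a small total weight -/
theorem bad_odd (b ρ : ℕ) : ∃ (C q : ℝ) (k2 : ℕ), 0 ≤ C ∧ 0 < q ∧ q < 1 ∧ ∀ k, k2 ≤ k →
    (((od k).filter fun t => (X b ρ k t : ℝ) < 100000 * 2 ^ (0.7 * (k : ℝ))).card : ℝ) ≤
      C * q ^ k * 2 ^ k := by
  obtain ⟨σ, hσ0, hσ⟩ := exists_sigma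
  obtain ⟨k1, hk1⟩ := X_pos b ρ
  obtain ⟨k2, hk2⟩ : ∃ k2, k2 = max k1 (max b 1) := ⟨_, rfl⟩
  have h21 : k1 ≤ k2 := by rw [hk2]; exact le_max_left _ _
  have h2b : b ≤ k2 := by rw [hk2]; exact (le_max_left _ _).trans (le_max_right _ _)
  have h21' : 1 ≤ k2 := by rw [hk2]; exact (le_max_right _ _).trans (le_max_right _ _)
  obtain ⟨R, hR⟩ : ∃ R : ℝ, R = 1 + (2.64 : ℝ) ^ (-σ) := ⟨_, rfl⟩
  have hR1 : 1 ≤ R := by rw [hR]; linarith [Real.rpow_nonneg (by norm_num : (0 : ℝ) ≤ 2.64) (-σ)]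
  rw [← hR] at hσ
  obtain ⟨G, hG⟩ : ∃ G : ℕ → ℝ, G = fun k => ∑ t ∈ od k, (X b ρ k t : ℝ) ^ (-σ) := ⟨_, rfl⟩
  have hG0 : ∀ k, 0 ≤ G k := fun k => by
    rw [hG]; exact Finset.sum_nonneg fun t _ => Real.rpow_nonneg (by positivity) _
  have hstep : ∀ k, k2 ≤ k → G (k + 1) ≤ R * G k := by
    intro k hk
    rw [hG]
    simp only
    rw [sum_od (by omega), Finset.mul_sum]
    refine Finset.sum_le_sum fun t ht => ?_
    have hX : (1 : ℝ) ≤ X b ρ k t := by exact_mod_cast hk1 k (by omega) t (mem_od.1 ht).2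
    rw [hR]
    exact two_point hσ0 (by linarith) (by exact_mod_cast X_le (by omega) ρ t)
      (by exact_mod_cast X_le' (by omega) ρ t) (X_mul (by omega) ρ t)
  have hGk : ∀ k, k2 ≤ k → G k ≤ R ^ k * G k2 := by
    intro k hk
    induction k, hk using Nat.le_induction with
    | base =>
      have : 1 ≤ R ^ k2 := one_le_pow₀ hR1
      nlinarith [hG0 k2]
    | succ k hk ih =>
      calc G (k + 1) ≤ R * G k := hstep k hk
        _ ≤ R * (R ^ k * G k2) := mul_le_mul_of_nonneg_left ih (by linarith)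
        _ = R ^ (k + 1) * G k2 := by ring
  obtain ⟨D, hD⟩ : ∃ D : ℝ, D = R * 2 ^ (0.7 * σ) := ⟨_, rfl⟩
  have hDpos : 0 < D := by rw [hD]; positivity
  refine ⟨(100000 : ℝ) ^ σ * G k2, D / 2, k2, mul_nonneg (by positivity) (hG0 _), by positivity,
    by rw [div_lt_one (by norm_num), hD]; exact hσ, fun k hk => ?_⟩
  obtain ⟨y, hy⟩ : ∃ y : ℝ, y = 100000 * 2 ^ (0.7 * (k : ℝ)) := ⟨_, rfl⟩
  have hy0 : 0 < y := by rw [hy]; positivity
  rw [← hy]
  have h1 : (((od k).filter fun t => (X b ρ k t : ℝ) < y).card : ℝ) * y ^ (-σ) ≤ G k := by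
    rw [← nsmul_eq_mul, hG]
    refine (Finset.card_nsmul_le_sum ((od k).filter fun t => (X b ρ k t : ℝ) < y)
      (fun t => (X b ρ k t : ℝ) ^ (-σ)) _ fun t ht => ?_).trans ?_
    · obtain ⟨h2, h3⟩ := Finset.mem_filter.1 ht
      have hX : (1 : ℝ) ≤ X b ρ k t := by exact_mod_cast hk1 k (by omega) t (mem_od.1 h2).2
      exact Real.rpow_le_rpow_of_nonpos (by linarith) h3.le (by linarith)
    · exact Finset.sum_le_sum_of_subset_of_nonneg (Finset.filter_subset _ _)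
        fun t _ _ => Real.rpow_nonneg (by positivity) _
  have h2 : (((od k).filter fun t => (X b ρ k t : ℝ) < y).card : ℝ) ≤ y ^ σ * G k := by
    rw [Real.rpow_neg hy0.le, ← div_eq_mul_inv, div_le_iff₀ (by positivity)] at h1
    linarith
  have h3 : y ^ σ = (100000 : ℝ) ^ σ * (2 ^ (0.7 * σ)) ^ k := by
    rw [hy, Real.mul_rpow (by norm_num) (by positivity), ← Real.rpow_mul (by norm_num),
      ← Real.rpow_natCast, ← Real.rpow_mul (by norm_num)]
    congr 2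
    ring
  calc _ ≤ y ^ σ * G k := h2
    _ ≤ y ^ σ * (R ^ k * G k2) := mul_le_mul_of_nonneg_left (hGk k hk) (by positivity)
    _ = (100000 : ℝ) ^ σ * G k2 * (D / 2) ^ k * 2 ^ k := by
      rw [h3, mul_assoc (_ * _) ((D / 2) ^ k), ← mul_pow, div_mul_cancel₀ _ (by norm_num), hD,
        mul_pow]
      ring

/-- few exponents have few even coefficients: combinatorial form -/
theorem bad_even_nat (b ρ : ℕ) : ∀ h k : ℕ, h + b ≤ k →
    ((range (2 ^ k)).filter fun t => 2 ^ (h + b + 1) * Nev b ρ t (2 ^ k) < 2 ^ k).card ≤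
      2 ^ (k - h) := by
  intro h
  induction h with
  | zero =>
    intro k _
    refine (Finset.card_filter_le _ _).trans ?_
    rw [Finset.card_range, Nat.sub_zero]
  | succ h ih =>
    intro k hk
    obtain ⟨k, rfl⟩ : ∃ k', k = k' + 1 := ⟨k - 1, by omega⟩
    have hk' : h + b ≤ k := by omega
    have e : k + 1 - (h + 1) = k - h := by omega
    rw [e]
    refine le_trans ?_ (ih k hk')
    refine Finset.card_le_card_of_injOn (fun t => t % 2 ^ k) (fun t ht => ?_) ?_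
    · have ht' := Finset.mem_filter.1 (Finset.mem_coe.1 ht)
      rw [Finset.mem_coe, Finset.mem_filter, Finset.mem_range]
      refine ⟨Nat.mod_lt _ (by positivity), ?_⟩
      show 2 ^ (h + b + 1) * Nev b ρ (t % 2 ^ k) (2 ^ k) < 2 ^ k
      have h1 : Nev b ρ (t % 2 ^ k) (2 ^ k) ≤ Nev b ρ t (2 ^ (k + 1)) := by
        have h2 := Nev_low b ρ k (t % 2 ^ k) (t / 2 ^ k)
        rw [Nat.mod_add_div] at h2
        rw [← h2]
        exact Nev_mono b ρ t (Nat.pow_le_pow_right (by norm_num) (by omega))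
      have h3 := ht'.2
      have h4 : h + 1 + b + 1 = (h + b + 1) + 1 := by omega
      rw [h4, pow_succ, pow_succ 2 k] at h3
      have h5 : 2 ^ (h + b + 1) * Nev b ρ (t % 2 ^ k) (2 ^ k) ≤
          2 ^ (h + b + 1) * Nev b ρ t (2 ^ (k + 1)) := Nat.mul_le_mul_left _ h1
      have h6 : 2 ^ (h + b + 1) * 2 * Nev b ρ t (2 ^ k * 2) =
          2 * (2 ^ (h + b + 1) * Nev b ρ t (2 ^ (k + 1))) := by rw [pow_succ 2 k]; ring
      rw [h6] at h3
      omega
    · intro t ht t' ht' he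
      have ht1 := Finset.mem_filter.1 (Finset.mem_coe.1 ht)
      have ht1' := Finset.mem_filter.1 (Finset.mem_coe.1 ht')
      have hlt := Finset.mem_range.1 ht1.1
      have hlt' := Finset.mem_range.1 ht1'.1
      have he' : t % 2 ^ k = t' % 2 ^ k := he
      -- both are `r` or `r + 2 ^ k`; not both can be exceptional
      have key : ∀ r, ¬ (2 ^ (h + 1 + b + 1) * Nev b ρ r (2 ^ (k + 1)) < 2 ^ (k + 1) ∧
          2 ^ (h + 1 + b + 1) * Nev b ρ (r + 2 ^ k) (2 ^ (k + 1)) < 2 ^ (k + 1)) := by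
        rintro r ⟨h1, h2⟩
        have h3 := Nev_step (by omega : b ≤ k) ρ r
        have h4 : (2 : ℕ) ^ (h + 1 + b + 1) = 2 ^ (h + 2) * 2 ^ b := by
          rw [← pow_add]; congr 1; omega
        rw [h4, pow_succ 2 k] at h1 h2
        rw [pow_succ 2 k] at h3
        have h5 : 2 ^ (h + 2) * 2 ^ k ≤ 2 ^ (h + 2) * (2 ^ b * (Nev b ρ r (2 ^ k * 2) +
            Nev b ρ (r + 2 ^ k) (2 ^ k * 2))) := Nat.mul_le_mul_left _ h3
        have h6 : 4 * 2 ^ k ≤ 2 ^ (h + 2) * 2 ^ k := by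
          refine Nat.mul_le_mul_right _ ?_
          rw [pow_add]
          have : 1 ≤ 2 ^ h := Nat.one_le_two_pow
          omega
        have h7 : 2 ^ (h + 2) * (2 ^ b * (Nev b ρ r (2 ^ k * 2) +
            Nev b ρ (r + 2 ^ k) (2 ^ k * 2))) = 2 ^ (h + 2) * 2 ^ b * Nev b ρ r (2 ^ k * 2) +
            2 ^ (h + 2) * 2 ^ b * Nev b ρ (r + 2 ^ k) (2 ^ k * 2) := by ring
        omega
      have hpk : 2 ^ (k + 1) = 2 * 2 ^ k := by rw [pow_succ]; ring
      have d1 : t / 2 ^ k < 2 := Nat.div_lt_of_lt_mul (by omega)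
      have d2 : t' / 2 ^ k < 2 := Nat.div_lt_of_lt_mul (by omega)
      have m1 := Nat.mod_add_div t (2 ^ k)
      have m2 := Nat.mod_add_div t' (2 ^ k)
      rcases Nat.lt_or_ge (t / 2 ^ k) 1 with q1 | q1 <;>
        rcases Nat.lt_or_ge (t' / 2 ^ k) 1 with q2 | q2
      · have z1 : t / 2 ^ k = 0 := Nat.lt_one_iff.1 q1
        have z2 : t' / 2 ^ k = 0 := Nat.lt_one_iff.1 q2
        rw [z1] at m1; rw [z2] at m2; omega
      · exfalso
        have z1 : t / 2 ^ k = 0 := Nat.lt_one_iff.1 q1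
        have z2 : t' / 2 ^ k = 1 := Nat.le_antisymm (Nat.le_of_lt_succ d2) q2
        rw [z1, mul_zero, add_zero] at m1
        rw [z2, mul_one, ← he', m1] at m2
        refine key t ⟨ht1.2, ?_⟩
        rw [m2]; exact ht1'.2
      · exfalso
        have z1 : t / 2 ^ k = 1 := Nat.le_antisymm (Nat.le_of_lt_succ d1) q1
        have z2 : t' / 2 ^ k = 0 := Nat.lt_one_iff.1 q2
        rw [z2, mul_zero, add_zero] at m2
        rw [z1, mul_one, he', m2] at m1
        refine key t' ⟨ht1'.2, ?_⟩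
        rw [m1]; exact ht1.2
      · have z1 : t / 2 ^ k = 1 := Nat.le_antisymm (Nat.le_of_lt_succ d1) q1
        have z2 : t' / 2 ^ k = 1 := Nat.le_antisymm (Nat.le_of_lt_succ d2) q2
        rw [z1] at m1; rw [z2] at m2; omega

end Pool.Agent.L7h67.AE
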