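import Mathlib

/-!
# Almost all exponents: the weight of a window

`ph x0 … x5` is the weight of the window `x0, …, x5`; `cert` is a finite check.
-/

set_option autoImplicit false

namespace Pool.Agent.L7h67.AE

/-- the weight of a window of six bits -/
def ph (x0 x1 x2 x3 x4 x5 : Bool) : ℕ :=
  bif x5 then (bif x4 then (bif x3 then (bif x2 then (bif x1 then (bif x0 then (10000) else (9791))
  else (bif x0 then (9955) else (9236))) else (bif x1 then (bif x0 then (7564) else (9791)) else
  (bif x0 then (10000) else (7358)))) else (bif x2 then (bif x1 then (bif x0 then (9804) else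
  (7524)) else (bif x0 then (9804) else (9236))) else (bif x1 then (bif x0 then (10000) else (9791))
  else (bif x0 then (9804) else (7221))))) else (bif x3 then (bif x2 then (bif x1 then (bif x0 then
  (9955) else (7524)) else (bif x0 then (9955) else (7465))) else (bif x1 then (bif x0 then (9804)
  else (7524)) else (bif x0 then (10000) else (7358)))) else (bif x2 then (bif x1 then (bif x0 then
  (7564) else (9791)) else (bif x0 then (9804) else (9236))) else (bif x1 then (bif x0 then (9955)
  else (7524)) else (bif x0 then (9804) else (6844)))))) else (bif x4 then (bif x3 then (bif x2 then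
  (bif x1 then (bif x0 then (9955) else (9791)) else (bif x0 then (10000) else (7465))) else (bif x1
  then (bif x0 then (9804) else (9791)) else (bif x0 then (9955) else (7358)))) else (bif x2 then
  (bif x1 then (bif x0 then (7564) else (7524)) else (bif x0 then (7564) else (7465))) else (bif x1
  then (bif x0 then (9955) else (9791)) else (bif x0 then (7564) else (7221))))) else (bif x3 then
  (bif x2 then (bif x1 then (bif x0 then (10000) else (7524)) else (bif x0 then (10000) else
  (9236))) else (bif x1 then (bif x0 then (7564) else (7524)) else (bif x0 then (9955) else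
  (7358)))) else (bif x2 then (bif x1 then (bif x0 then (9804) else (9791)) else (bif x0 then (7564)
  else (7465))) else (bif x1 then (bif x0 then (10000) else (7524)) else (bif x0 then (7564) else
  (0))))))

/-- the finite check: `a = E d`, `E = 1 + y + y² + y⁵ + y⁷ + O(y¹²)` -/
def ok (d0 d1 d2 d3 d4 d5 d6 d7 d8 d9 d10 d11 : Bool) : Bool :=
  let a0 := d0
  let a1 := Bool.xor d1 d0
  let a2 := Bool.xor (Bool.xor d2 d1) d0
  let a3 := Bool.xor (Bool.xor d3 d2) d1
  let a4 := Bool.xor (Bool.xor d4 d3) d2
  let a5 := Bool.xor (Bool.xor (Bool.xor d5 d4) d3) d0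
  let a6 := Bool.xor (Bool.xor (Bool.xor d6 d5) d4) d1
  let a7 := Bool.xor (Bool.xor (Bool.xor (Bool.xor d7 d6) d5) d2) d0
  let a8 := Bool.xor (Bool.xor (Bool.xor (Bool.xor d8 d7) d6) d3) d1
  let a9 := Bool.xor (Bool.xor (Bool.xor (Bool.xor d9 d8) d7) d4) d2
  let a10 := Bool.xor (Bool.xor (Bool.xor (Bool.xor d10 d9) d8) d5) d3
  let a11 := Bool.xor (Bool.xor (Bool.xor (Bool.xor d11 d10) d9) d6) d4
  let p := ph a0 a1 a2 a3 a4 a5
  let x := ph a0 a2 a4 a6 a8 a10 + ph a1 a3 a5 a7 a9 a11
  let y := ph d0 d2 d4 d6 d8 d10 + ph d1 d3 d5 d7 d9 d11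
  Nat.ble (264 * (p * p)) (100 * (x * y)) && (Nat.ble p x && Nat.ble p y)

theorem cert : ∀ d0 d1 d2 d3 d4 d5 d6 d7 d8 d9 d10 d11 : Bool,
    ok d0 d1 d2 d3 d4 d5 d6 d7 d8 d9 d10 d11 = true := by
  decide +kernel

theorem ph_zero : ph false false false false false false = 0 := rfl

theorem ph_le : ∀ x0 x1 x2 x3 x4 x5 : Bool, ph x0 x1 x2 x3 x4 x5 ≤ 10000 := by
  decide +kernel

theorem ph_pos : ∀ x1 x2 x3 x4 x5 : Bool, 0 < ph true x1 x2 x3 x4 x5 := by
  decide +kernel

end Pool.Agent.L7h67.AE
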