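import Pool.Agent.L7h67.AE.Rec

/-!
# Almost all exponents: the total weight at the scale `2 ^ k` and its recursion
-/

set_option autoImplicit false

open PowerSeries Finset
open Pool.Agent.TH693.PP (P E S)

namespace Pool.Agent.L7h67.AE

/-- the places below `2 ^ k` in the class of `ρ` modulo `2 ^ b` -/
def pl (b ρ k : ℕ) : Finset ℕ := (range (2 ^ k)).filter fun n => n % 2 ^ b = ρ % 2 ^ b

theorem mem_pl {b ρ k n : ℕ} : n ∈ pl b ρ k ↔ n < 2 ^ k ∧ n % 2 ^ b = ρ % 2 ^ b := by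
  unfold pl
  rw [Finset.mem_filter, Finset.mem_range]

theorem add_mod_pow {b k : ℕ} (h : b ≤ k) (n v : ℕ) : (n + 2 ^ k * v) % 2 ^ b = n % 2 ^ b := by
  obtain ⟨d, rfl⟩ := Nat.exists_eq_add_of_le h
  rw [pow_add, mul_assoc, Nat.add_mul_mod_self_left]

/-- sums over the places -/
theorem sum_pl {M : Type} [AddCommMonoid M] {b k : ℕ} (h : b ≤ k) (ρ : ℕ) (f : ℕ → M) :
    ∑ n ∈ pl b ρ (k + 1), f n = ∑ n ∈ pl b ρ k, (f n + f (n + 2 ^ k)) := by
  unfold pl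
  rw [Finset.sum_filter, Finset.sum_filter, pow_succ, mul_two, Finset.sum_range_add,
    ← Finset.sum_add_distrib]
  refine Finset.sum_congr rfl fun n _ => ?_
  have h1 : (2 ^ k + n) % 2 ^ b = n % 2 ^ b := by
    have := add_mod_pow h n 1
    rwa [mul_one, add_comm] at this
  rw [h1, add_comm (2 ^ k) n]
  split_ifs
  · rfl
  · rw [add_zero]

theorem card_pl {b k : ℕ} (h : b ≤ k) (ρ : ℕ) : 2 ^ b * (pl b ρ k).card = 2 ^ k := by
  induction k, h using Nat.le_induction with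
  | base =>
    have : pl b ρ b = {ρ % 2 ^ b} := by
      ext n
      rw [mem_pl, Finset.mem_singleton]
      constructor
      · rintro ⟨h1, h2⟩
        rwa [Nat.mod_eq_of_lt h1] at h2
      · rintro rfl
        exact ⟨Nat.mod_lt _ (by positivity), Nat.mod_mod _ _⟩
    rw [this, Finset.card_singleton, mul_one]
  | succ k hk ih =>
    have h1 : (pl b ρ (k + 1)).card = 2 * (pl b ρ k).card := by
      have := sum_pl hk ρ (fun _ => 1)
      simp only [Finset.sum_const, smul_eq_mul] at this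
      omega
    rw [h1, pow_succ, ← ih]
    ring

/-- the total weight -/
noncomputable def X (b ρ k t : ℕ) : ℕ := ∑ n ∈ pl b ρ k, phw k t n

/-- the number of odd coefficients below `x` in the class -/
noncomputable def Nodd (b ρ t x : ℕ) : ℕ :=
  ((range x).filter fun n => n % 2 ^ b = ρ % 2 ^ b ∧ c t n = 1).card

/-- the number of even coefficients below `x` in the class -/
noncomputable def Nev (b ρ t x : ℕ) : ℕ :=
  ((range x).filter fun n => n % 2 ^ b = ρ % 2 ^ b ∧ c t n = 0).card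

theorem Nodd_mono (b ρ t : ℕ) {x y : ℕ} (h : x ≤ y) : Nodd b ρ t x ≤ Nodd b ρ t y :=
  Finset.card_le_card (Finset.filter_subset_filter _ (Finset.range_mono h))

theorem Nev_mono (b ρ t : ℕ) {x y : ℕ} (h : x ≤ y) : Nev b ρ t x ≤ Nev b ρ t y :=
  Finset.card_le_card (Finset.filter_subset_filter _ (Finset.range_mono h))

theorem X_succ {b k : ℕ} (h : b ≤ k) (ρ t : ℕ) :
    X b ρ (k + 1) t = ∑ n ∈ pl b ρ k, (phw (k + 1) t n + phw (k + 1) t (n + 2 ^ k)) := by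
  unfold X
  exact sum_pl h ρ _

theorem X_le {b k : ℕ} (h : b ≤ k) (ρ t : ℕ) : X b ρ k t ≤ X b ρ (k + 1) t := by
  rw [X_succ h]
  exact Finset.sum_le_sum fun n hn => (phw_step (mem_pl.1 hn).1 t).2.1

theorem X_le' {b k : ℕ} (h : b ≤ k) (ρ t : ℕ) : X b ρ k t ≤ X b ρ (k + 1) (t + 2 ^ k) := by
  rw [X_succ h]
  exact Finset.sum_le_sum fun n hn => (phw_step (mem_pl.1 hn).1 t).2.2

theorem X_mul {b k : ℕ} (h : b ≤ k) (ρ t : ℕ) :
    (2.64 : ℝ) * (X b ρ k t : ℝ) ^ 2 ≤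
      (X b ρ (k + 1) t : ℝ) * (X b ρ (k + 1) (t + 2 ^ k) : ℝ) := by
  set f : ℕ → ℝ := fun n => √((phw (k + 1) t n + phw (k + 1) t (n + 2 ^ k) : ℕ) : ℝ) with hf
  set g : ℕ → ℝ := fun n => √((phw (k + 1) (t + 2 ^ k) n +
    phw (k + 1) (t + 2 ^ k) (n + 2 ^ k) : ℕ) : ℝ) with hg
  have h1 : ∀ n ∈ pl b ρ k, √2.64 * (phw k t n : ℝ) ≤ f n * g n := by
    intro n hn
    have h2 := (phw_step (mem_pl.1 hn).1 t).1
    have h3 : (264 : ℝ) * ((phw k t n : ℝ) * (phw k t n : ℝ)) ≤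
        100 * (((phw (k + 1) t n + phw (k + 1) t (n + 2 ^ k) : ℕ) : ℝ) *
          ((phw (k + 1) (t + 2 ^ k) n + phw (k + 1) (t + 2 ^ k) (n + 2 ^ k) : ℕ) : ℝ)) := by
      exact_mod_cast h2
    rw [hf, hg]
    simp only
    rw [← Real.sqrt_mul (by positivity)]
    refine Real.le_sqrt_of_sq_le ?_
    rw [mul_pow, Real.sq_sqrt (by norm_num)]
    nlinarith
  have h4 : √2.64 * (X b ρ k t : ℝ) ≤ ∑ n ∈ pl b ρ k, f n * g n := by
    unfold X
    rw [Nat.cast_sum, Finset.mul_sum]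
    exact Finset.sum_le_sum h1
  have h5 : (∑ n ∈ pl b ρ k, f n * g n) ^ 2 ≤
      (∑ n ∈ pl b ρ k, f n ^ 2) * ∑ n ∈ pl b ρ k, g n ^ 2 :=
    Finset.sum_mul_sq_le_sq_mul_sq _ _ _
  have h6 : ∑ n ∈ pl b ρ k, f n ^ 2 = (X b ρ (k + 1) t : ℝ) := by
    rw [X_succ h, Nat.cast_sum]
    refine Finset.sum_congr rfl fun n _ => ?_
    rw [hf]
    exact Real.sq_sqrt (by positivity)
  have h7 : ∑ n ∈ pl b ρ k, g n ^ 2 = (X b ρ (k + 1) (t + 2 ^ k) : ℝ) := by
    rw [X_succ h, Nat.cast_sum]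
    refine Finset.sum_congr rfl fun n _ => ?_
    rw [hg]
    exact Real.sq_sqrt (by positivity)
  rw [h6, h7] at h5
  have h8 : (2.64 : ℝ) * (X b ρ k t : ℝ) ^ 2 = (√2.64 * (X b ρ k t : ℝ)) ^ 2 := by
    rw [mul_pow, Real.sq_sqrt (by norm_num)]
  rw [h8]
  exact (pow_le_pow_left₀ (by positivity) h4 2).trans h5

theorem X_Nodd {b k : ℕ} (h : b ≤ k) (ρ t s : ℕ) :
    X b ρ k t ≤ 10000 * Nodd b ρ (t + 2 ^ k * s) (2 ^ (k + 3)) := by
  classical
  have h1 : X b ρ k t ≤ 10000 * ((pl b ρ k).filter fun n => phw k t n ≠ 0).card := by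
    unfold X
    rw [← Finset.sum_filter_ne_zero, mul_comm, ← smul_eq_mul]
    exact Finset.sum_le_card_nsmul _ _ _ fun n _ => phw_le k t n
  refine h1.trans (Nat.mul_le_mul_left _ ?_)
  have h2 : ∀ n ∈ (pl b ρ k).filter fun n => phw k t n ≠ 0,
      ∃ v < 6, ∀ s, c (t + 2 ^ k * s) (n + 2 ^ k * v) = 1 := fun n hn =>
    exists_of_phw (mem_pl.1 (Finset.mem_filter.1 hn).1).1 (Finset.mem_filter.1 hn).2
  choose! v hv hv1 using h2
  unfold Nodd
  refine Finset.card_le_card_of_injOn (fun n => n + 2 ^ k * v n) (fun n hn => ?_) ?_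
  · have hn' := Finset.mem_coe.1 hn
    have h3 := mem_pl.1 (Finset.mem_filter.1 hn').1
    have h4 := hv n hn'
    rw [Finset.mem_coe, Finset.mem_filter, Finset.mem_range]
    refine ⟨?_, ?_, hv1 n hn' s⟩
    · have h5 : 2 ^ k * v n ≤ 2 ^ k * 5 := Nat.mul_le_mul_left _ (by omega)
      have h6 : 2 ^ (k + 3) = 2 ^ k * 8 := by rw [pow_add]; norm_num
      show n + 2 ^ k * v n < 2 ^ (k + 3)
      omega
    · show (n + 2 ^ k * v n) % 2 ^ b = ρ % 2 ^ b
      rw [add_mod_pow h]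
      exact h3.2
  · intro n hn n' hn' he
    have h3 := (mem_pl.1 (Finset.mem_filter.1 (Finset.mem_coe.1 hn)).1).1
    have h3' := (mem_pl.1 (Finset.mem_filter.1 (Finset.mem_coe.1 hn')).1).1
    have h4 : (n + 2 ^ k * v n) % 2 ^ k = (n' + 2 ^ k * v n') % 2 ^ k := congrArg (· % 2 ^ k) he
    rwa [Nat.add_mul_mod_self_left, Nat.add_mul_mod_self_left, Nat.mod_eq_of_lt h3,
      Nat.mod_eq_of_lt h3'] at h4

theorem Nev_low (b ρ k t s : ℕ) : Nev b ρ (t + 2 ^ k * s) (2 ^ k) = Nev b ρ t (2 ^ k) := by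
  unfold Nev
  congr 1
  refine Finset.filter_congr fun n hn => ?_
  rw [c_low (Finset.mem_range.1 hn)]

/-- one of the two exponents has many even coefficients -/
theorem Nev_step {b k : ℕ} (h : b ≤ k) (ρ t : ℕ) :
    2 ^ k ≤ 2 ^ b * (Nev b ρ t (2 ^ (k + 1)) + Nev b ρ (t + 2 ^ k) (2 ^ (k + 1))) := by
  classical
  have e : ∀ t' j, Nev b ρ t' (2 ^ j) = ∑ n ∈ pl b ρ j, if c t' n = 0 then 1 else 0 := by
    intro t' j
    unfold Nev pl
    rw [Finset.card_filter, Finset.sum_filter]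
    refine Finset.sum_congr rfl fun n _ => ?_
    by_cases h1 : n % 2 ^ b = ρ % 2 ^ b
    · simp [h1]
    · simp [h1]
  have key : (pl b ρ k).card ≤
      Nev b ρ t (2 ^ (k + 1)) + Nev b ρ (t + 2 ^ k) (2 ^ (k + 1)) := ?_
  · calc 2 ^ k = 2 ^ b * (pl b ρ k).card := (card_pl h ρ).symm
      _ ≤ _ := Nat.mul_le_mul_left _ key
  rw [e, e, sum_pl h, sum_pl h, ← Finset.sum_add_distrib, Finset.card_eq_sum_ones]
  refine Finset.sum_le_sum fun n hn => ?_
  have hn' := (mem_pl.1 hn).1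
  have h1 : c (t + 2 ^ k) n = c t n := by
    have := c_low hn' t 1
    rwa [mul_one] at this
  have h2 : c t (n + 2 ^ k) = c (t + 2 ^ k) (n + 2 ^ k) + c (t + 2 ^ k) n := by
    have h3 := relE hn' t 1
    rw [conv1 (fun i => c (t + 2 ^ k) (n + 2 ^ k * i))] at h3
    simpa using h3
  rw [h2, h1]
  have h4 : ∀ x y : ZMod 2, 1 ≤ (if x = 0 then 1 else 0) + (if y + x = 0 then 1 else 0) +
      ((if x = 0 then 1 else 0) + if y = 0 then 1 else 0) := by decide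
  exact h4 _ _

end Pool.Agent.L7h67.AE
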