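import Pool.Agent.L7h67.AE.Bad

/-!
# Almost all exponents: all scales together
-/

set_option autoImplicit false

open PowerSeries Finset
open Pool.Agent.TH693.PP (P E S)

namespace Pool.Agent.L7h67.AE

theorem sq_le_four_pow (k : ℕ) : k ^ 2 ≤ 4 * 2 ^ k := by
  induction k with
  | zero => norm_num
  | succ k ih =>
    rcases Nat.lt_or_ge k 3 with h | h
    · interval_cases k <;> norm_num
    · rw [pow_succ 2 k]
      nlinarith

/-- few exponents have few even coefficients: real form -/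
theorem bad_even (b ρ k : ℕ) (hk : 1 ≤ k) :
    (((range (2 ^ k)).filter fun t =>
      (Nev b ρ t (2 ^ k) : ℝ) < 5 / (k : ℝ) ^ 2 * 2 ^ k).card : ℝ) ≤
      5 * 2 ^ (b + 2) / (k : ℝ) ^ 2 * 2 ^ k := by
  have hk0 : (0 : ℝ) < k := by exact_mod_cast hk
  obtain ⟨y, hy⟩ : ∃ y : ℝ, y = (k : ℝ) ^ 2 / 5 := ⟨_, rfl⟩
  have hy0 : 0 < y := by rw [hy]; positivity
  have e1 : 5 / (k : ℝ) ^ 2 = 1 / y := by rw [hy]; field_simp
  have e2 : 5 * 2 ^ (b + 2) / (k : ℝ) ^ 2 = 2 ^ (b + 2) / y := by rw [hy]; field_simp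
  rw [e1, e2]
  have hy2 : y ≤ 2 ^ k := by
    have h1 : ((k ^ 2 : ℕ) : ℝ) ≤ ((4 * 2 ^ k : ℕ) : ℝ) := by exact_mod_cast sq_le_four_pow k
    push_cast at h1
    have h2 : (0 : ℝ) < 2 ^ k := by positivity
    rw [hy]
    linarith
  rcases lt_or_ge y (2 ^ (b + 1)) with h | h
  · have h1 : (((range (2 ^ k)).filter fun t =>
      (Nev b ρ t (2 ^ k) : ℝ) < 1 / y * 2 ^ k).card : ℝ) ≤ 2 ^ k := by
      have := Finset.card_filter_le (range (2 ^ k)) fun t =>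
        (Nev b ρ t (2 ^ k) : ℝ) < 1 / y * 2 ^ k
      rw [Finset.card_range] at this
      exact_mod_cast this
    have h2 : 1 ≤ 2 ^ (b + 2) / y := by
      rw [le_div_iff₀ hy0, one_mul]
      have : (2 : ℝ) ^ (b + 2) = 2 * 2 ^ (b + 1) := by ring
      rw [this]
      have : (0 : ℝ) < 2 ^ (b + 1) := by positivity
      linarith
    calc _ ≤ (2 : ℝ) ^ k := h1
      _ = 1 * 2 ^ k := (one_mul _).symm
      _ ≤ _ := mul_le_mul_of_nonneg_right h2 (by positivity)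
  · obtain ⟨L, hL⟩ : ∃ L, L = Nat.log 2 ⌊y⌋₊ := ⟨_, rfl⟩
    have hfl : ⌊y⌋₊ ≠ 0 := by
      have h1 : (1 : ℝ) ≤ y := le_trans (one_le_pow₀ (by norm_num)) h
      have := Nat.floor_pos.2 h1
      omega
    have hL1 : (2 : ℝ) ^ L ≤ y := by
      have h1 : 2 ^ L ≤ ⌊y⌋₊ := by rw [hL]; exact Nat.pow_log_le_self 2 hfl
      have h2 : ((2 ^ L : ℕ) : ℝ) ≤ y := (Nat.cast_le.2 h1).trans (Nat.floor_le hy0.le)
      exact_mod_cast h2
    have hL2 : y < (2 : ℝ) ^ (L + 1) := by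
      have h1 : ⌊y⌋₊ < 2 ^ (L + 1) := by rw [hL]; exact Nat.lt_pow_succ_log_self (by norm_num) _
      have h2 := (Nat.floor_lt hy0.le).1 h1
      exact_mod_cast h2
    have hLb : b + 1 ≤ L := by
      by_contra hcon
      have h1 : L + 1 ≤ b + 1 := by omega
      have h2 : (2 : ℝ) ^ (L + 1) ≤ 2 ^ (b + 1) := pow_le_pow_right₀ (by norm_num) h1
      linarith
    have hLk : L ≤ k := by
      by_contra hcon
      have h1 : k + 1 ≤ L := by omega
      have h2 : (2 : ℝ) ^ (k + 1) ≤ 2 ^ L := pow_le_pow_right₀ (by norm_num) h1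
      have h3 : (2 : ℝ) ^ (k + 1) = 2 * 2 ^ k := by ring
      have h4 : (0 : ℝ) < 2 ^ k := by positivity
      linarith
    obtain ⟨h', rfl⟩ : ∃ h', L = h' + b + 1 := ⟨L - b - 1, by omega⟩
    have h1 := bad_even_nat b ρ h' k (by omega)
    have h2 : ((range (2 ^ k)).filter fun t => (Nev b ρ t (2 ^ k) : ℝ) < 1 / y * 2 ^ k).card ≤
        ((range (2 ^ k)).filter fun t =>
          2 ^ (h' + b + 1) * Nev b ρ t (2 ^ k) < 2 ^ k).card := by
      refine Finset.card_le_card fun t ht => ?_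
      obtain ⟨h3, h4⟩ := Finset.mem_filter.1 ht
      refine Finset.mem_filter.2 ⟨h3, ?_⟩
      have h5 : y * (Nev b ρ t (2 ^ k) : ℝ) < 2 ^ k := by
        rw [one_div, inv_mul_eq_div, lt_div_iff₀ hy0] at h4
        linarith
      have h6 : (2 : ℝ) ^ (h' + b + 1) * (Nev b ρ t (2 ^ k) : ℝ) ≤
          y * (Nev b ρ t (2 ^ k) : ℝ) := mul_le_mul_of_nonneg_right hL1 (by positivity)
      exact_mod_cast h6.trans_lt h5
    have h3 : (((range (2 ^ k)).filter fun t =>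
        (Nev b ρ t (2 ^ k) : ℝ) < 1 / y * 2 ^ k).card : ℝ) ≤ 2 ^ (k - h') := by
      exact_mod_cast h2.trans h1
    refine h3.trans ?_
    have h4 : (2 : ℝ) ^ k = 2 ^ h' * 2 ^ (k - h') := by rw [← pow_add]; congr 1; omega
    rw [h4, ← mul_assoc]
    have h5 : 1 ≤ 2 ^ (b + 2) / y * 2 ^ h' := by
      rw [div_mul_eq_mul_div, le_div_iff₀ hy0, one_mul, ← pow_add]
      have : b + 2 + h' = h' + b + 1 + 1 := by omega
      rw [this]
      exact hL2.le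
    calc (2 : ℝ) ^ (k - h') = 1 * 2 ^ (k - h') := (one_mul _).symm
      _ ≤ _ := mul_le_mul_of_nonneg_right h5 (by positivity)

/-- the number of exponents below `T` with residue in `B` -/
theorem card_pre {k : ℕ} (B : Finset ℕ) (T : ℕ) :
    ((range T).filter fun t => t % 2 ^ k ∈ B).card ≤ B.card * (T / 2 ^ k + 1) := by
  rw [← Finset.card_range (T / 2 ^ k + 1), ← Finset.card_product]
  refine Finset.card_le_card_of_injOn (fun t => (t % 2 ^ k, t / 2 ^ k)) (fun t ht => ?_) ?_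
  · obtain ⟨h1, h2⟩ := Finset.mem_filter.1 (Finset.mem_coe.1 ht)
    rw [Finset.mem_coe, Finset.mem_product, Finset.mem_range]
    refine ⟨h2, ?_⟩
    have := Nat.div_le_div_right (c := 2 ^ k) (Finset.mem_range.1 h1).le
    exact Nat.lt_succ_of_le this
  · intro t _ t' _ h
    have h1 := (Prod.ext_iff.1 h).1
    have h2 := (Prod.ext_iff.1 h).2
    simp only at h1 h2
    rw [← Nat.mod_add_div t (2 ^ k), ← Nat.mod_add_div t' (2 ^ k), h1, h2]

theorem card_pre_pow {k K : ℕ} (hkK : k ≤ K) (B : Finset ℕ) :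
    ((range (2 ^ K)).filter fun t => t % 2 ^ k ∈ B).card ≤ B.card * 2 ^ (K - k) := by
  rw [← Finset.card_range (2 ^ (K - k)), ← Finset.card_product]
  refine Finset.card_le_card_of_injOn (fun t => (t % 2 ^ k, t / 2 ^ k)) (fun t ht => ?_) ?_
  · obtain ⟨h1, h2⟩ := Finset.mem_filter.1 (Finset.mem_coe.1 ht)
    rw [Finset.mem_coe, Finset.mem_product, Finset.mem_range]
    refine ⟨h2, ?_⟩
    refine Nat.div_lt_of_lt_mul ?_
    rw [← pow_add]
    have : k + (K - k) = K := by omega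
    rw [this]
    exact Finset.mem_range.1 h1
  · intro t _ t' _ h
    have h1 := (Prod.ext_iff.1 h).1
    have h2 := (Prod.ext_iff.1 h).2
    simp only at h1 h2
    rw [← Nat.mod_add_div t (2 ^ k), ← Nat.mod_add_div t' (2 ^ k), h1, h2]

/-- good at the scale `2 ^ k` implies many odd coefficients below `x`, `2 ^ (k + 3) ≤ x < 2 ^ (k + 4)` -/
theorem odd_of {b ρ k t x : ℕ} (hbk : b ≤ k)
    (h : 100000 * 2 ^ (0.7 * (k : ℝ)) ≤ (X b ρ k (t % 2 ^ k) : ℝ)) (h1 : 2 ^ (k + 3) ≤ x)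
    (h2 : x < 2 ^ (k + 4)) : (x : ℝ) ^ (0.7 : ℝ) ≤ Nodd b ρ t x := by
  have h3 := X_Nodd hbk ρ (t % 2 ^ k) (t / 2 ^ k)
  rw [Nat.mod_add_div] at h3
  have h4 : (X b ρ k (t % 2 ^ k) : ℝ) ≤ 10000 * Nodd b ρ t x := by
    have h5 : X b ρ k (t % 2 ^ k) ≤ 10000 * Nodd b ρ t x :=
      h3.trans (Nat.mul_le_mul_left _ (Nodd_mono b ρ t h1))
    exact_mod_cast h5
  have h5 : (x : ℝ) ≤ 2 ^ ((k : ℝ) + 4) := by
    have : (x : ℝ) ≤ ((2 ^ (k + 4) : ℕ) : ℝ) := by exact_mod_cast h2.le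
    rw [show ((k : ℝ) + 4) = ((k + 4 : ℕ) : ℝ) by push_cast; ring, Real.rpow_natCast]
    exact_mod_cast this
  have h6 : (x : ℝ) ^ (0.7 : ℝ) ≤ 2 ^ (0.7 * (k : ℝ)) * 2 ^ (2.8 : ℝ) := by
    calc (x : ℝ) ^ (0.7 : ℝ) ≤ (2 ^ ((k : ℝ) + 4)) ^ (0.7 : ℝ) :=
          Real.rpow_le_rpow (by positivity) h5 (by norm_num)
      _ = 2 ^ (0.7 * (k : ℝ)) * 2 ^ (2.8 : ℝ) := by
        rw [← Real.rpow_mul (by norm_num), ← Real.rpow_add (by norm_num)]
        congr 1; ring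
  have h7 : (2 : ℝ) ^ (2.8 : ℝ) ≤ 8 := by
    calc (2 : ℝ) ^ (2.8 : ℝ) ≤ 2 ^ (3 : ℝ) :=
          Real.rpow_le_rpow_of_exponent_le (by norm_num) (by norm_num)
      _ = 8 := by norm_num
  have h8 : (0 : ℝ) < 2 ^ (0.7 * (k : ℝ)) := by positivity
  nlinarith

theorem even_of {b ρ j t x : ℕ} (hj : 1 ≤ j)
    (h : 5 / (j : ℝ) ^ 2 * 2 ^ j ≤ (Nev b ρ (t % 2 ^ j) (2 ^ j) : ℝ)) (h1 : 2 ^ j ≤ x)
    (h2 : x < 2 ^ (j + 1)) : (x : ℝ) / (Real.log x) ^ 2 ≤ Nev b ρ t x := by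
  have h3 := Nev_low b ρ j (t % 2 ^ j) (t / 2 ^ j)
  rw [Nat.mod_add_div] at h3
  have h4 : (Nev b ρ (t % 2 ^ j) (2 ^ j) : ℝ) ≤ Nev b ρ t x := by
    rw [← h3]
    exact_mod_cast Nev_mono b ρ t h1
  refine le_trans ?_ (h.trans h4)
  have hj0 : (0 : ℝ) < j := by exact_mod_cast hj
  have h5 : (x : ℝ) ≤ 2 * 2 ^ j := by
    have : (x : ℝ) ≤ ((2 ^ (j + 1) : ℕ) : ℝ) := by exact_mod_cast h2.le
    push_cast at this
    rw [pow_succ] at this
    linarith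
  have h6 : (j : ℝ) * Real.log 2 ≤ Real.log x := by
    have h7 : ((2 ^ j : ℕ) : ℝ) ≤ x := by exact_mod_cast h1
    have h8 := Real.log_le_log (by positivity) h7
    push_cast at h8
    rwa [Real.log_pow] at h8
  have h7 : 0.4 * (j : ℝ) ^ 2 ≤ (Real.log x) ^ 2 := by
    have h8 := Real.log_two_gt_d9
    have h9 : 0.69 * (j : ℝ) ≤ Real.log x := by nlinarith
    nlinarith
  calc (x : ℝ) / (Real.log x) ^ 2 ≤ (2 * 2 ^ j) / (0.4 * (j : ℝ) ^ 2) :=
        div_le_div₀ (by positivity) h5 (by positivity) h7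
    _ = 5 / (j : ℝ) ^ 2 * 2 ^ j := by
      field_simp
      norm_num

theorem tail {f : ℕ → ℝ} (hf : Summable f) (hf0 : ∀ k, 0 ≤ f k) {ε : ℝ} (hε : 0 < ε) (k2 : ℕ) :
    ∃ k0, k2 ≤ k0 ∧ ∀ K, ∑ k ∈ Ico k0 K, f k ≤ ε := by
  obtain ⟨s, hs⟩ := summable_iff_vanishing_norm.1 hf ε hε
  refine ⟨max k2 (s.sup id + 1), le_max_left _ _, fun K => ?_⟩
  have h1 : Disjoint (Ico (max k2 (s.sup id + 1)) K) s := by
    rw [Finset.disjoint_left]
    intro k hk hks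
    have h2 := (Finset.mem_Ico.1 hk).1
    have h3 : k ≤ s.sup id := Finset.le_sup (f := id) hks
    have h4 := le_max_right k2 (s.sup id + 1)
    omega
  have h2 := hs _ h1
  rw [Real.norm_of_nonneg (Finset.sum_nonneg fun k _ => hf0 k)] at h2
  exact h2.le

open Classical in
theorem main (b ρ : ℕ) (ε : ℝ) (hε : 0 < ε) : ∃ x0 : ℕ, ∀ T : ℕ,
    (((range T).filter fun t => Odd t ∧ ∃ x : ℕ, x0 ≤ x ∧ x ≤ T ∧
      ¬ ((x : ℝ) ^ (0.7 : ℝ) ≤ Nodd b ρ t x ∧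
        (x : ℝ) / (Real.log x) ^ 2 ≤ Nev b ρ t x)).card : ℝ) ≤ ε * T := by
  obtain ⟨C, q, k2, hC, hq0, hq1, hbad⟩ := bad_odd b ρ
  obtain ⟨f, hf⟩ : ∃ f : ℕ → ℝ, ∀ k : ℕ, f k =
    C * q ^ k + 5 * 2 ^ (b + 2) * (1 / (k : ℝ) ^ 2) := ⟨_, fun _ => rfl⟩
  have hf' : f = fun k : ℕ => C * q ^ k + 5 * 2 ^ (b + 2) * (1 / (k : ℝ) ^ 2) := funext hf
  have hsum : Summable f := by
    rw [hf']
    exact ((summable_geometric_of_lt_one hq0.le hq1).mul_left C).add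
      ((Real.summable_one_div_nat_pow.2 (by norm_num)).mul_left _)
  have hf0 : ∀ k, 0 ≤ f k := fun k => by rw [hf]; positivity
  obtain ⟨k0, hk0, htail⟩ := tail hsum hf0 (half_pos hε) (max k2 (max b 1))
  have hk2 : k2 ≤ k0 := (le_max_left _ _).trans hk0
  have hkb : b ≤ k0 := (le_max_left _ _).trans ((le_max_right _ _).trans hk0)
  have hk1 : 1 ≤ k0 := (le_max_right _ _).trans ((le_max_right _ _).trans hk0)
  refine ⟨2 ^ (k0 + 3), fun T => ?_⟩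
  rcases Nat.eq_zero_or_pos T with rfl | hT
  · simp
  obtain ⟨K, hK⟩ : ∃ K, K = Nat.log 2 T + 1 := ⟨_, rfl⟩
  have hTK : T < 2 ^ K := by rw [hK]; exact Nat.lt_pow_succ_log_self (by norm_num) _
  have hKT : 2 ^ K ≤ 2 * T := by
    rw [hK, pow_succ]
    have := Nat.pow_log_le_self 2 hT.ne'
    omega
  obtain ⟨BO, hBO⟩ : ∃ BO : ℕ → Finset ℕ, BO = fun k : ℕ =>
    (od k).filter fun t => (X b ρ k t : ℝ) < 100000 * 2 ^ (0.7 * (k : ℝ)) := ⟨_, rfl⟩
  obtain ⟨BE, hBE⟩ : ∃ BE : ℕ → Finset ℕ, BE = fun k : ℕ =>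
    (range (2 ^ k)).filter fun t => (Nev b ρ t (2 ^ k) : ℝ) < 5 / (k : ℝ) ^ 2 * 2 ^ k := ⟨_, rfl⟩
  have hsub : ((range T).filter fun t => Odd t ∧ ∃ x : ℕ, 2 ^ (k0 + 3) ≤ x ∧ x ≤ T ∧
      ¬ ((x : ℝ) ^ (0.7 : ℝ) ≤ Nodd b ρ t x ∧
        (x : ℝ) / (Real.log x) ^ 2 ≤ Nev b ρ t x)) ⊆
      (Ico k0 K).biUnion fun k => ((range (2 ^ K)).filter fun t => t % 2 ^ k ∈ BO k) ∪
        ((range (2 ^ K)).filter fun t => t % 2 ^ k ∈ BE k) := by
    intro t ht
    obtain ⟨ht1, ht2, x, hx0, hxT, hno⟩ := Finset.mem_filter.1 ht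
    have htK : t ∈ range (2 ^ K) :=
      Finset.mem_range.2 ((Finset.mem_range.1 ht1).trans hTK)
    have hx1 : x ≠ 0 := by
      have : 0 < 2 ^ (k0 + 3) := by positivity
      omega
    obtain ⟨j, hj⟩ : ∃ j, j = Nat.log 2 x := ⟨_, rfl⟩
    have hj1 : 2 ^ j ≤ x := by rw [hj]; exact Nat.pow_log_le_self 2 hx1
    have hj2 : x < 2 ^ (j + 1) := by rw [hj]; exact Nat.lt_pow_succ_log_self (by norm_num) _
    have hjk : k0 + 3 ≤ j := by
      by_contra hcon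
      have h1 : 2 ^ (j + 1) ≤ 2 ^ (k0 + 3) := Nat.pow_le_pow_right (by norm_num) (by omega)
      omega
    have hjK : j < K := by
      rw [hj, hK]
      exact Nat.lt_succ_of_le (Nat.log_mono_right hxT)
    rw [Finset.mem_biUnion]
    by_contra hcon
    push Not at hcon
    apply hno
    constructor
    · obtain ⟨k, rfl⟩ : ∃ k, j = k + 3 := ⟨j - 3, by omega⟩
      have h1 := hcon k (Finset.mem_Ico.2 ⟨by omega, by omega⟩)
      rw [Finset.mem_union, not_or] at h1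
      refine odd_of (k := k) (by omega) ?_ hj1 hj2
      by_contra h2
      apply h1.1
      rw [Finset.mem_filter]
      refine ⟨htK, ?_⟩
      rw [hBO]
      simp only
      rw [Finset.mem_filter, mem_od]
      refine ⟨⟨Nat.mod_lt _ (by positivity), ?_⟩, not_le.1 h2⟩
      rw [Nat.odd_iff] at ht2 ⊢
      have : 2 ∣ 2 ^ k := dvd_pow_self 2 (by omega)
      rw [Nat.mod_mod_of_dvd _ this]
      exact ht2
    · have h1 := hcon j (Finset.mem_Ico.2 ⟨by omega, hjK⟩)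
      rw [Finset.mem_union, not_or] at h1
      refine even_of (by omega) ?_ hj1 hj2
      by_contra h2
      apply h1.2
      rw [Finset.mem_filter]
      refine ⟨htK, ?_⟩
      rw [hBE]
      simp only
      rw [Finset.mem_filter, Finset.mem_range]
      exact ⟨Nat.mod_lt _ (by positivity), not_le.1 h2⟩
  have hcard : (((Ico k0 K).biUnion fun k =>
      ((range (2 ^ K)).filter fun t => t % 2 ^ k ∈ BO k) ∪
        ((range (2 ^ K)).filter fun t => t % 2 ^ k ∈ BE k)).card : ℝ) ≤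
      ∑ k ∈ Ico k0 K, 2 ^ K * f k := by
    have h1 : ((Ico k0 K).biUnion fun k =>
      ((range (2 ^ K)).filter fun t => t % 2 ^ k ∈ BO k) ∪
        ((range (2 ^ K)).filter fun t => t % 2 ^ k ∈ BE k)).card ≤
        ∑ k ∈ Ico k0 K, ((BO k).card * 2 ^ (K - k) + (BE k).card * 2 ^ (K - k)) := by
      refine Finset.card_biUnion_le.trans (Finset.sum_le_sum fun k hk => ?_)
      have hkK := (Finset.mem_Ico.1 hk).2
      exact (Finset.card_union_le _ _).trans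
        (add_le_add (card_pre_pow hkK.le _) (card_pre_pow hkK.le _))
    have h2 : (((Ico k0 K).biUnion fun k =>
      ((range (2 ^ K)).filter fun t => t % 2 ^ k ∈ BO k) ∪
        ((range (2 ^ K)).filter fun t => t % 2 ^ k ∈ BE k)).card : ℝ) ≤
        ∑ k ∈ Ico k0 K, (((BO k).card : ℝ) * 2 ^ (K - k) + ((BE k).card : ℝ) * 2 ^ (K - k)) := by
      exact_mod_cast h1
    refine h2.trans (Finset.sum_le_sum fun k hk => ?_)
    have hkK := (Finset.mem_Ico.1 hk)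
    have h3 := hbad k (by omega)
    have h4 := bad_even b ρ k (by omega)
    have h5 : (2 : ℝ) ^ K = 2 ^ k * 2 ^ (K - k) := by rw [← pow_add]; congr 1; omega
    have h6 : (0 : ℝ) < 2 ^ (K - k) := by positivity
    have h7 : ((BO k).card : ℝ) ≤ C * q ^ k * 2 ^ k := by rw [hBO]; exact h3
    have h8 : ((BE k).card : ℝ) ≤ 5 * 2 ^ (b + 2) / (k : ℝ) ^ 2 * 2 ^ k := by
      rw [hBE]; exact h4
    calc ((BO k).card : ℝ) * 2 ^ (K - k) + ((BE k).card : ℝ) * 2 ^ (K - k)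
        ≤ C * q ^ k * 2 ^ k * 2 ^ (K - k) +
          5 * 2 ^ (b + 2) / (k : ℝ) ^ 2 * 2 ^ k * 2 ^ (K - k) :=
          add_le_add (mul_le_mul_of_nonneg_right h7 h6.le)
            (mul_le_mul_of_nonneg_right h8 h6.le)
      _ = 2 ^ K * f k := by rw [hf, h5]; ring
  calc _ ≤ (((Ico k0 K).biUnion fun k =>
      ((range (2 ^ K)).filter fun t => t % 2 ^ k ∈ BO k) ∪
        ((range (2 ^ K)).filter fun t => t % 2 ^ k ∈ BE k)).card : ℝ) := by
        exact_mod_cast Finset.card_le_card hsub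
    _ ≤ ∑ k ∈ Ico k0 K, 2 ^ K * f k := hcard
    _ = 2 ^ K * ∑ k ∈ Ico k0 K, f k := (Finset.mul_sum _ _ _).symm
    _ ≤ 2 ^ K * (ε / 2) := mul_le_mul_of_nonneg_left (htail K) (by positivity)
    _ ≤ (2 * T) * (ε / 2) := by
      refine mul_le_mul_of_nonneg_right ?_ (by positivity)
      exact_mod_cast hKT
    _ = ε * T := by ring

end Pool.Agent.L7h67.AE
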