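import Pool.Agent.L7h67.AE.Final

/-!
# Almost all exponents: the top scale
-/

set_option autoImplicit false

open PowerSeries Finset
open Pool.Agent.TH693.PP (P E S)

namespace Pool.Agent.L7h67.AE

open Classical in
theorem main2 (b ρ : ℕ) : ∃ δ : ℝ, 0 < δ ∧ ∃ C : ℝ, ∀ T : ℕ, 1 ≤ T →
    (((range T).filter fun t => Odd t ∧ (Nodd b ρ t T : ℝ) < (T : ℝ) ^ (0.7 : ℝ)).card : ℝ) ≤
      C * (T : ℝ) ^ (1 - δ) := by
  obtain ⟨C, q, k2, hC, hq0, hq1, hbad⟩ := bad_odd b ρ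
  obtain ⟨k0, hk0⟩ : ∃ k0, k0 = max k2 (max b 1) := ⟨_, rfl⟩
  have hk2 : k2 ≤ k0 := by rw [hk0]; exact le_max_left _ _
  have hkb : b ≤ k0 := by rw [hk0]; exact (le_max_left _ _).trans (le_max_right _ _)
  have hk1 : 1 ≤ k0 := by rw [hk0]; exact (le_max_right _ _).trans (le_max_right _ _)
  obtain ⟨δ, hδ⟩ : ∃ δ : ℝ, δ = min 1 (-Real.logb 2 q) := ⟨_, rfl⟩
  have hδ0 : 0 < δ := by
    rw [hδ]
    exact lt_min one_pos (by linarith [Real.logb_neg (by norm_num : (1 : ℝ) < 2) hq0 hq1])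
  have hδ1 : δ ≤ 1 := by rw [hδ]; exact min_le_left _ _
  have hδq : q ≤ 2 ^ (-δ) := by
    have h1 : Real.logb 2 q ≤ -δ := by
      have : δ ≤ -Real.logb 2 q := by rw [hδ]; exact min_le_right _ _
      linarith
    calc q = 2 ^ (Real.logb 2 q) := (Real.rpow_logb (by norm_num) (by norm_num) hq0).symm
      _ ≤ 2 ^ (-δ) := Real.rpow_le_rpow_of_exponent_le (by norm_num) h1
  refine ⟨δ, hδ0, 2 ^ (k0 + 3) + 17 * 2 ^ (4 * δ) * C, fun T hT => ?_⟩
  have hT1 : (1 : ℝ) ≤ T := by exact_mod_cast hT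
  have hTd : 1 ≤ (T : ℝ) ^ (1 - δ) := Real.one_le_rpow hT1 (by linarith)
  rcases Nat.lt_or_ge T (2 ^ (k0 + 3)) with hlt | hge
  · have h1 : (((range T).filter fun t => Odd t ∧
        (Nodd b ρ t T : ℝ) < (T : ℝ) ^ (0.7 : ℝ)).card : ℝ) ≤ 2 ^ (k0 + 3) := by
      have h2 := (Finset.card_filter_le (range T) fun t => Odd t ∧
        (Nodd b ρ t T : ℝ) < (T : ℝ) ^ (0.7 : ℝ))
      rw [Finset.card_range] at h2
      exact_mod_cast h2.trans hlt.le
    refine h1.trans ?_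
    calc (2 : ℝ) ^ (k0 + 3) ≤ 2 ^ (k0 + 3) + 17 * 2 ^ (4 * δ) * C := by
          have : 0 ≤ 17 * 2 ^ (4 * δ) * C := by positivity
          linarith
      _ = (2 ^ (k0 + 3) + 17 * 2 ^ (4 * δ) * C) * 1 := (mul_one _).symm
      _ ≤ _ := mul_le_mul_of_nonneg_left hTd (by positivity)
  · obtain ⟨j, hj⟩ : ∃ j, j = Nat.log 2 T := ⟨_, rfl⟩
    have hj1 : 2 ^ j ≤ T := by rw [hj]; exact Nat.pow_log_le_self 2 (by omega)
    have hj2 : T < 2 ^ (j + 1) := by rw [hj]; exact Nat.lt_pow_succ_log_self (by norm_num) _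
    have hjk : k0 + 3 ≤ j := by
      by_contra hcon
      have h1 : 2 ^ (j + 1) ≤ 2 ^ (k0 + 3) := Nat.pow_le_pow_right (by norm_num) (by omega)
      omega
    obtain ⟨k, rfl⟩ : ∃ k, j = k + 3 := ⟨j - 3, by omega⟩
    obtain ⟨BO, hBO⟩ : ∃ BO : Finset ℕ, BO =
      (od k).filter fun t => (X b ρ k t : ℝ) < 100000 * 2 ^ (0.7 * (k : ℝ)) := ⟨_, rfl⟩
    have hsub : ((range T).filter fun t => Odd t ∧
        (Nodd b ρ t T : ℝ) < (T : ℝ) ^ (0.7 : ℝ)) ⊆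
        (range T).filter fun t => t % 2 ^ k ∈ BO := by
      intro t ht
      obtain ⟨h1, h2, h3⟩ := Finset.mem_filter.1 ht
      refine Finset.mem_filter.2 ⟨h1, ?_⟩
      rw [hBO, Finset.mem_filter, mem_od]
      refine ⟨⟨Nat.mod_lt _ (by positivity), ?_⟩, ?_⟩
      · rw [Nat.odd_iff] at h2 ⊢
        have : 2 ∣ 2 ^ k := dvd_pow_self 2 (by omega)
        rw [Nat.mod_mod_of_dvd _ this]
        exact h2
      · by_contra h4
        exact absurd (odd_of (by omega) (not_lt.1 h4) hj1 hj2) (not_le.2 h3)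
    have h1 := (Finset.card_le_card hsub).trans (card_pre BO T)
    have h2 : T / 2 ^ k + 1 ≤ 17 := by
      have : T / 2 ^ k < 16 := Nat.div_lt_of_lt_mul (by
        have : 2 ^ (k + 3 + 1) = 2 ^ k * 16 := by rw [pow_add, pow_add]; ring
        omega)
      omega
    have h3 : (((range T).filter fun t => Odd t ∧
        (Nodd b ρ t T : ℝ) < (T : ℝ) ^ (0.7 : ℝ)).card : ℝ) ≤ (BO.card : ℝ) * 17 := by
      exact_mod_cast h1.trans (Nat.mul_le_mul_left _ h2)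
    have h4 : (BO.card : ℝ) ≤ C * q ^ k * 2 ^ k := by rw [hBO]; exact hbad k (by omega)
    have h5 : (2 : ℝ) ^ k ≤ T := by
      have : 2 ^ k ≤ T := (Nat.pow_le_pow_right (by norm_num) (by omega)).trans hj1
      exact_mod_cast this
    have h6 : q ^ k ≤ 2 ^ (4 * δ) * (T : ℝ) ^ (-δ) := by
      have h7 : (T : ℝ) ≤ 2 ^ ((k : ℝ) + 4) := by
        have : (T : ℝ) ≤ ((2 ^ (k + 3 + 1) : ℕ) : ℝ) := by exact_mod_cast hj2.le
        rw [show ((k : ℝ) + 4) = ((k + 3 + 1 : ℕ) : ℝ) by push_cast; ring, Real.rpow_natCast]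
        exact_mod_cast this
      have h8 : (2 ^ ((k : ℝ) + 4)) ^ (-δ) ≤ (T : ℝ) ^ (-δ) :=
        Real.rpow_le_rpow_of_nonpos (by linarith) h7 (by linarith)
      have h9 : (2 : ℝ) ^ (4 * δ) * (2 ^ ((k : ℝ) + 4)) ^ (-δ) = (2 ^ (-δ)) ^ k := by
        rw [← Real.rpow_mul (by norm_num), ← Real.rpow_add (by norm_num), ← Real.rpow_natCast,
          ← Real.rpow_mul (by norm_num)]
        congr 1; ring
      calc q ^ k ≤ (2 ^ (-δ)) ^ k := pow_le_pow_left₀ hq0.le hδq k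
        _ = (2 : ℝ) ^ (4 * δ) * (2 ^ ((k : ℝ) + 4)) ^ (-δ) := h9.symm
        _ ≤ _ := mul_le_mul_of_nonneg_left h8 (by positivity)
    have h10 : (T : ℝ) ^ (1 - δ) = T * (T : ℝ) ^ (-δ) := by
      rw [sub_eq_add_neg, Real.rpow_add (by linarith), Real.rpow_one]
    calc _ ≤ (BO.card : ℝ) * 17 := h3
      _ ≤ (C * q ^ k * 2 ^ k) * 17 := mul_le_mul_of_nonneg_right h4 (by norm_num)
      _ ≤ (C * (2 ^ (4 * δ) * (T : ℝ) ^ (-δ)) * T) * 17 := by gcongr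
      _ = (17 * 2 ^ (4 * δ) * C) * (T : ℝ) ^ (1 - δ) := by rw [h10]; ring
      _ ≤ _ := by
        refine mul_le_mul_of_nonneg_right ?_ (by positivity)
        have : (0 : ℝ) < 2 ^ (k0 + 3) := by positivity
        linarith

open Classical in
theorem main3 (b ρ : ℕ) (ε : ℝ) (hε : 0 < ε) : ∃ δ : ℝ, 0 < δ ∧ ∃ x0 : ℕ, ∀ x T : ℕ,
    x0 ≤ x → x ≤ T →
    (((range T).filter fun t => (Nev b ρ t x : ℝ) < δ * x).card : ℝ) ≤ ε * T := by
  obtain ⟨h, hh⟩ := exists_pow_lt_of_lt_one (half_pos hε) (by norm_num : (1 / 2 : ℝ) < 1)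
  refine ⟨1 / 2 ^ (h + b + 2), by positivity, 2 ^ (h + b), fun x T hx hT => ?_⟩
  have hx1 : x ≠ 0 := by
    have : 0 < 2 ^ (h + b) := by positivity
    omega
  obtain ⟨k, hk⟩ : ∃ k, k = Nat.log 2 x := ⟨_, rfl⟩
  have hk1 : 2 ^ k ≤ x := by rw [hk]; exact Nat.pow_log_le_self 2 hx1
  have hk2 : x < 2 ^ (k + 1) := by rw [hk]; exact Nat.lt_pow_succ_log_self (by norm_num) _
  have hhk : h + b ≤ k := by
    by_contra hcon
    have h1 : 2 ^ (k + 1) ≤ 2 ^ (h + b) := Nat.pow_le_pow_right (by norm_num) (by omega)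
    omega
  obtain ⟨B, hB⟩ : ∃ B : Finset ℕ, B = (range (2 ^ k)).filter fun t =>
    2 ^ (h + b + 1) * Nev b ρ t (2 ^ k) < 2 ^ k := ⟨_, rfl⟩
  have hsub : ((range T).filter fun t => (Nev b ρ t x : ℝ) < 1 / 2 ^ (h + b + 2) * x) ⊆
      (range T).filter fun t => t % 2 ^ k ∈ B := by
    intro t ht
    obtain ⟨h1, h2⟩ := Finset.mem_filter.1 ht
    refine Finset.mem_filter.2 ⟨h1, ?_⟩
    rw [hB, Finset.mem_filter, Finset.mem_range]
    refine ⟨Nat.mod_lt _ (by positivity), ?_⟩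
    have h3 := Nev_low b ρ k (t % 2 ^ k) (t / 2 ^ k)
    rw [Nat.mod_add_div] at h3
    rw [← h3]
    have h4 : Nev b ρ t (2 ^ k) ≤ Nev b ρ t x := Nev_mono b ρ t hk1
    have h5 : 2 ^ (h + b + 2) * Nev b ρ t x < x := by
      rw [one_div, inv_mul_eq_div, lt_div_iff₀ (by positivity)] at h2
      have : ((2 ^ (h + b + 2) * Nev b ρ t x : ℕ) : ℝ) < x := by
        push_cast
        linarith
      exact_mod_cast this
    have h6 : 2 ^ (h + b + 2) = 2 * 2 ^ (h + b + 1) := by ring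
    have h7 : 2 ^ (h + b + 1) * Nev b ρ t (2 ^ k) ≤ 2 ^ (h + b + 1) * Nev b ρ t x :=
      Nat.mul_le_mul_left _ h4
    rw [h6, mul_assoc] at h5
    rw [pow_succ] at hk2
    omega
  have h1 := (Finset.card_le_card hsub).trans (card_pre B T)
  have h2 : B.card ≤ 2 ^ (k - h) := by rw [hB]; exact bad_even_nat b ρ h k hhk
  have h3 : (((range T).filter fun t => (Nev b ρ t x : ℝ) < 1 / 2 ^ (h + b + 2) * x).card : ℝ) ≤
      2 ^ (k - h) * ((T / 2 ^ k : ℕ) + 1) := by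
    exact_mod_cast h1.trans (Nat.mul_le_mul_right _ h2)
  have h4 : ((T / 2 ^ k : ℕ) : ℝ) ≤ T / 2 ^ k := by
    have := Nat.cast_div_le (α := ℝ) (m := T) (n := 2 ^ k)
    push_cast at this
    exact this
  have h5 : (1 : ℝ) ≤ T / 2 ^ k := by
    rw [one_le_div (by positivity)]
    exact_mod_cast hk1.trans hT
  have h6 : (2 : ℝ) ^ k = 2 ^ h * 2 ^ (k - h) := by rw [← pow_add]; congr 1; omega
  calc _ ≤ (2 : ℝ) ^ (k - h) * ((T / 2 ^ k : ℕ) + 1) := h3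
    _ ≤ 2 ^ (k - h) * (2 * (T / 2 ^ k)) := by
      refine mul_le_mul_of_nonneg_left ?_ (by positivity)
      linarith
    _ = 2 * (1 / 2) ^ h * T := by
      rw [h6, one_div, inv_pow]
      field_simp
    _ ≤ 2 * (ε / 2) * T := by gcongr
    _ = ε * T := by ring

end Pool.Agent.L7h67.AE
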