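import Pool.Agent.L7h67.AE.Count
import Pool.Agent.R836.PP.EvenC

/-!
# Almost all exponents: the exceptional exponents at one scale
-/

set_option autoImplicit false

open PowerSeries Finset
open Pool.Agent.TH693.PP (P E S)

namespace Pool.Agent.L7h67.AE

/-- the odd exponents below `2 ^ k` -/
def od (k : ℕ) : Finset ℕ := (range (2 ^ k)).filter fun t => Odd t

theorem mem_od {k t : ℕ} : t ∈ od k ↔ t < 2 ^ k ∧ Odd t := by
  unfold od
  rw [Finset.mem_filter, Finset.mem_range]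

theorem sum_od {k : ℕ} (hk : 1 ≤ k) (f : ℕ → ℝ) :
    ∑ t ∈ od (k + 1), f t = ∑ t ∈ od k, (f t + f (t + 2 ^ k)) := by
  unfold od
  rw [Finset.sum_filter, Finset.sum_filter, pow_succ, mul_two, Finset.sum_range_add,
    ← Finset.sum_add_distrib]
  refine Finset.sum_congr rfl fun t _ => ?_
  have h2 : Even (2 ^ k : ℕ) := by
    obtain ⟨j, rfl⟩ := Nat.exists_eq_add_of_le hk
    rw [pow_add, pow_one]
    exact even_two_mul _
  have h1 : Odd (2 ^ k + t) ↔ Odd t := by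
    rw [Nat.odd_add', ]
    exact ⟨fun h => h.2 h2, fun h => ⟨fun _ => h2, fun _ => h⟩⟩
  rw [add_comm t (2 ^ k)]
  by_cases h3 : Odd t
  · rw [if_pos h3, if_pos (h1.2 h3), if_pos h3]
  · rw [if_neg h3, if_neg (fun h => h3 (h1.1 h)), if_neg h3, add_zero]

theorem two_point {σ x y z : ℝ} (hσ : 0 < σ) (hz : 0 < z) (hx : z ≤ x) (hy : z ≤ y)
    (h : 2.64 * z ^ 2 ≤ x * y) :
    x ^ (-σ) + y ^ (-σ) ≤ (1 + (2.64 : ℝ) ^ (-σ)) * z ^ (-σ) := by
  have hx0 : 0 < x := hz.trans_le hx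
  have hy0 : 0 < y := hz.trans_le hy
  have ex : x ^ (-σ) = (x / z) ^ (-σ) * z ^ (-σ) := by
    rw [← Real.mul_rpow (by positivity) hz.le, div_mul_cancel₀ _ hz.ne']
  have ey : y ^ (-σ) = (y / z) ^ (-σ) * z ^ (-σ) := by
    rw [← Real.mul_rpow (by positivity) hz.le, div_mul_cancel₀ _ hz.ne']
  rw [ex, ey, ← add_mul]
  refine mul_le_mul_of_nonneg_right ?_ (by positivity)
  have p1 : (x / z) ^ (-σ) ≤ 1 :=
    Real.rpow_le_one_of_one_le_of_nonpos ((one_le_div hz).2 hx) (by linarith)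
  have q1 : (y / z) ^ (-σ) ≤ 1 :=
    Real.rpow_le_one_of_one_le_of_nonpos ((one_le_div hz).2 hy) (by linarith)
  have pq : (x / z) ^ (-σ) * (y / z) ^ (-σ) ≤ (2.64 : ℝ) ^ (-σ) := by
    rw [← Real.mul_rpow (by positivity) (by positivity)]
    refine Real.rpow_le_rpow_of_nonpos (by norm_num) ?_ (by linarith)
    rw [div_mul_div_comm, le_div_iff₀ (by positivity)]
    nlinarith
  nlinarith [mul_nonneg (sub_nonneg.2 p1) (sub_nonneg.2 q1)]

theorem exists_sigma : ∃ σ : ℝ, 0 < σ ∧ (1 + (2.64 : ℝ) ^ (-σ)) * 2 ^ (0.7 * σ) < 2 := by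
  have h264 : (0 : ℝ) < 2.64 := by norm_num
  obtain ⟨l, hl⟩ : ∃ l : ℝ, l = Real.log 2.64 := ⟨_, rfl⟩
  obtain ⟨m, hm⟩ : ∃ m : ℝ, m = 0.7 * Real.log 2 := ⟨_, rfl⟩
  have hlog2 : 0 < Real.log 2 := Real.log_pos (by norm_num)
  have hm0 : 0 < m := by rw [hm]; positivity
  have hml : 2 * m < l := by
    have h1 : Real.log ((2 : ℝ) ^ 7) < Real.log ((2.64 : ℝ) ^ 5) :=
      Real.log_lt_log (by norm_num) (by norm_num)
    rw [Real.log_pow, Real.log_pow, ← hl] at h1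
    rw [hm]
    push_cast at h1
    linarith
  obtain ⟨D, hD⟩ : ∃ D : ℝ, D = m ^ 2 + (l - m) ^ 2 + l := ⟨_, rfl⟩
  have hlm : 0 < l - m := by linarith
  have hDpos : 0 < D := by rw [hD]; nlinarith
  obtain ⟨σ, hσ⟩ : ∃ σ : ℝ, σ = min (1 / (l + 1)) ((l - 2 * m) / (2 * D)) := ⟨_, rfl⟩
  have hl0 : 0 < l := by linarith
  have hσ0 : 0 < σ := by
    rw [hσ]
    exact lt_min (by positivity) (div_pos (by linarith) (by positivity))
  have hσ1 : σ * (l + 1) ≤ 1 := by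
    have : σ ≤ 1 / (l + 1) := by rw [hσ]; exact min_le_left _ _
    rwa [le_div_iff₀ (by positivity)] at this
  have hσ2 : σ * (2 * D) ≤ l - 2 * m := by
    have : σ ≤ (l - 2 * m) / (2 * D) := by rw [hσ]; exact min_le_right _ _
    rwa [le_div_iff₀ (by positivity)] at this
  refine ⟨σ, hσ0, ?_⟩
  have e1 : (2 : ℝ) ^ (0.7 * σ) = Real.exp (σ * m) := by
    rw [Real.rpow_def_of_pos (by norm_num), hm]
    congr 1; ring
  have e2 : (2.64 : ℝ) ^ (-σ) = Real.exp (-(σ * l)) := by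
    rw [Real.rpow_def_of_pos h264, ← hl]
    congr 1; ring
  rw [add_mul, one_mul, e1, e2, ← Real.exp_add]
  have e3 : -(σ * l) + σ * m = -(σ * (l - m)) := by ring
  rw [e3]
  have a1 : |σ * m| ≤ 1 := by
    rw [abs_of_pos (by positivity)]
    nlinarith
  have a2 : |-(σ * (l - m))| ≤ 1 := by
    rw [abs_neg, abs_of_pos (by positivity)]
    nlinarith
  have b1 := abs_le.1 (Real.abs_exp_sub_one_sub_id_le a1)
  have b2 := abs_le.1 (Real.abs_exp_sub_one_sub_id_le a2)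
  have c1 : Real.exp (σ * m) ≤ 1 + σ * m + (σ * m) ^ 2 := by linarith [b1.2]
  have c2 : Real.exp (-(σ * (l - m))) ≤ 1 - σ * (l - m) + (-(σ * (l - m))) ^ 2 := by
    linarith [b2.2]
  have d1 : (σ * m) ^ 2 + (-(σ * (l - m))) ^ 2 ≤ σ * (σ * D) := by
    rw [hD]
    nlinarith [mul_pos hσ0 hσ0, mul_pos (mul_pos hσ0 hσ0) hl0]
  have d2 : σ * (σ * D) < σ * (l - 2 * m) := by
    refine mul_lt_mul_of_pos_left ?_ hσ0
    have : 0 < σ * D := by positivity
    linarith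
  nlinarith

theorem first_one {k n : ℕ} (hn : n < 2 ^ k) {t : ℕ} (h : ∃ v, c t (n + 2 ^ k * v) = 1) :
    ∃ v, ∀ s, c (t + 2 ^ k * s) (n + 2 ^ k * v) = 1 := by
  classical
  refine ⟨Nat.find h, fun s => ?_⟩
  rw [relP hn, Finset.sum_range_succ', Nat.sub_zero, c_zero, one_mul, Nat.find_spec h,
    Finset.sum_eq_zero, zero_add]
  intro j hj
  have hj' := Finset.mem_range.1 hj
  have h3 : Nat.find h - (j + 1) < Nat.find h := by omega
  have h5 := Nat.find_min h h3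
  have h6 : ∀ x : ZMod 2, x ≠ 1 → x = 0 := by decide
  rw [h6 _ h5, mul_zero]

/-- every class contains an odd coefficient of `P ^ t`, `t` odd -/
theorem exists_one (t b ρ : ℕ) (ht : Odd t) : ∃ n, n % 2 ^ b = ρ % 2 ^ b ∧ c t n = 1 := by
  obtain ⟨X0, hX0⟩ := Pool.Agent.R836.PP.odd_all t b (Nat.odd_iff.1 ht) 0 (L := 0) (fun _ => 1)
    (by intro h; exact absurd (congrFun h 0) (by decide)) ρ
  have h := hX0 (max X0 3) (le_max_left _ _)
  have h3 : (3 : ℝ) ≤ ((max X0 3 : ℕ) : ℝ) := by exact_mod_cast le_max_right _ _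
  have hpos : 0 < Real.sqrt ((max X0 3 : ℕ) : ℝ) *
      (Real.log (Real.log ((max X0 3 : ℕ) : ℝ))) ^ 0 / Real.log ((max X0 3 : ℕ) : ℝ) := by
    rw [pow_zero, mul_one]
    exact div_pos (Real.sqrt_pos.2 (by linarith)) (Real.log_pos (by linarith))
  have h4 := hpos.trans_le h
  have h5 : 0 < (Pool.Agent.R836.PP.vals (fun _ : Fin (0 + 1) => (1 : ZMod 2))
      ((PowerSeries.mk fun n => (Fintype.card (Nat.Partition n) : ZMod 2)) ^ t) 1
        (2 ^ b) ρ (max X0 3)).card := by exact_mod_cast h4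
  obtain ⟨n, hn⟩ := Finset.card_pos.1 h5
  unfold Pool.Agent.R836.PP.vals at hn
  rw [Finset.mem_filter] at hn
  refine ⟨n, hn.2.1, ?_⟩
  have h6 := hn.2.2
  unfold Pool.Agent.R836.PP.pat at h6
  rw [Fin.sum_univ_one, one_mul] at h6
  unfold c P
  simpa using h6

end Pool.Agent.L7h67.AE
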