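import Pool.Agent.L7h67.AE.Cert
import Pool.Agent.TH693.QQ.Asm

/-!
# Almost all exponents: the recursion for the windows
-/

set_option autoImplicit false

open PowerSeries Finset
open Pool.Agent.TH693.PP (P E S)

namespace Pool.Agent.L7h67.AE

/-- the coefficients of `P ^ t` -/
noncomputable def c (t n : ℕ) : ZMod 2 := coeff n (P ^ t)

/-- multiplication by a `2 ^ k`-th power acts on the windows -/
theorem coeff_mul_pow {k n : ℕ} (hn : n < 2 ^ k) (f g : S) (i : ℕ) :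
    coeff (n + 2 ^ k * i) (f * g ^ 2 ^ k) =
      ∑ j ∈ range (i + 1), coeff j g * coeff (n + 2 ^ k * (i - j)) f := by
  have hk : 0 < 2 ^ k := by positivity
  rw [Pool.Agent.TH693.QQ.pow_two_expand, mul_comm f, coeff_mul,
    Finset.Nat.sum_antidiagonal_eq_sum_range_succ
      (fun a b => coeff a (PowerSeries.expand (2 ^ k) (by positivity) g) * coeff b f)]
  rw [← Finset.sum_filter_add_sum_filter_not (range (n + 2 ^ k * i).succ) (fun y => 2 ^ k ∣ y)]
  have h0 : ∑ y ∈ (range (n + 2 ^ k * i).succ).filter (fun y => ¬ 2 ^ k ∣ y),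
      coeff y (PowerSeries.expand (2 ^ k) (by positivity) g) * coeff (n + 2 ^ k * i - y) f = 0 := by
    refine Finset.sum_eq_zero fun y hy => ?_
    rw [PowerSeries.coeff_expand, if_neg (Finset.mem_filter.1 hy).2, zero_mul]
  rw [h0, add_zero]
  have h1 : (range (n + 2 ^ k * i).succ).filter (fun y => 2 ^ k ∣ y) =
      (range (i + 1)).image (fun j => 2 ^ k * j) := by
    ext y
    simp only [Finset.mem_filter, Finset.mem_range, Finset.mem_image]
    constructor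
    · rintro ⟨h2, j, rfl⟩
      refine ⟨j, ?_, rfl⟩
      by_contra h3
      have h4 : i + 1 ≤ j := by omega
      have h5 : 2 ^ k * (i + 1) ≤ 2 ^ k * j := Nat.mul_le_mul_left _ h4
      rw [Nat.mul_add, Nat.mul_one] at h5
      omega
    · rintro ⟨j, h2, rfl⟩
      refine ⟨?_, Dvd.intro _ rfl⟩
      have h5 : 2 ^ k * j ≤ 2 ^ k * i := Nat.mul_le_mul_left _ (by omega)
      omega
  rw [h1, Finset.sum_image (by
    intro a _ b _ h
    exact Nat.eq_of_mul_eq_mul_left hk h)]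
  refine Finset.sum_congr rfl fun j hj => ?_
  have hj' : j ≤ i := by have := Finset.mem_range.1 hj; omega
  rw [PowerSeries.coeff_expand_mul]
  congr 2
  have h5 : 2 ^ k * j ≤ 2 ^ k * i := Nat.mul_le_mul_left _ hj'
  rw [Nat.mul_sub, Nat.add_sub_assoc h5]

/-- the first coefficients of `E` -/
theorem coeffE : ∀ j < 12, coeff j E = if j = 0 ∨ j = 1 ∨ j = 2 ∨ j = 5 ∨ j = 7 then 1 else 0 := by
  intro j hj
  have hp : ∀ k : ℤ, coeff (pentagonal k) E = 1 := by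
    intro k
    unfold E
    rw [coeff_pentagonalSeries_pentagonal]
    rcases Int.even_or_odd k with h | h
    · rw [Int.negOnePow_even k h]; rfl
    · rw [Int.negOnePow_odd k h]; rfl
  have e0 : pentagonal 0 = 0 := by decide
  have e1 : pentagonal 1 = 1 := by decide
  have e2 : pentagonal (-1) = 2 := by decide
  have e5 : pentagonal 2 = 5 := by decide
  have e7 : pentagonal (-2) = 7 := by decide
  split_ifs with h
  · rcases h with rfl | rfl | rfl | rfl | rfl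
    · have := hp 0; rwa [e0] at this
    · have := hp 1; rwa [e1] at this
    · have := hp (-1); rwa [e2] at this
    · have := hp 2; rwa [e5] at this
    · have := hp (-2); rwa [e7] at this
  · unfold E
    apply coeff_pentagonalSeries_eq_zero
    rintro ⟨k, hk⟩
    have h2 := two_mul_natCast_pentagonal k
    rw [hk] at h2
    have h3 : k * (3 * k - 1) < 24 := by rw [← h2]; omega
    have h4 : k < 4 := by nlinarith
    have h5 : -4 < k := by nlinarith
    interval_cases k <;> omega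


theorem P_pow_eq (t k : ℕ) : P ^ t = P ^ (t + 2 ^ k) * E ^ 2 ^ k := by
  rw [pow_add, mul_assoc, ← mul_pow, Pool.Agent.TH693.PP.P_mul_E, one_pow, mul_one]

/-- the windows of `P ^ t` from those of `P ^ (t + 2 ^ k)` -/
theorem relE {k n : ℕ} (hn : n < 2 ^ k) (t i : ℕ) :
    c t (n + 2 ^ k * i) = ∑ j ∈ range (i + 1), coeff j E * c (t + 2 ^ k) (n + 2 ^ k * (i - j)) := by
  unfold c
  rw [P_pow_eq t k, coeff_mul_pow hn]

/-- the windows of `P ^ (t + 2 ^ k s)` from those of `P ^ t` -/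
theorem relP {k n : ℕ} (hn : n < 2 ^ k) (t s i : ℕ) :
    c (t + 2 ^ k * s) (n + 2 ^ k * i) =
      ∑ j ∈ range (i + 1), c s j * c t (n + 2 ^ k * (i - j)) := by
  unfold c
  rw [pow_add, mul_comm (2 ^ k) s, pow_mul, coeff_mul_pow hn]

theorem c_zero (s : ℕ) : c s 0 = 1 := by
  unfold c
  rw [coeff_zero_eq_constantCoeff_apply, map_pow, Pool.Agent.TH693.PP.constP, one_pow]

theorem c_low {k n : ℕ} (hn : n < 2 ^ k) (t s : ℕ) : c (t + 2 ^ k * s) n = c t n := by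
  have h := relP hn t s 0
  rw [zero_add, Finset.sum_range_one, mul_zero, add_zero, c_zero, one_mul] at h
  simpa using h

/-- the bits of the windows -/
noncomputable def w (k t n i : ℕ) : Bool := decide (c t (n + 2 ^ k * i) = 1)

theorem bxor : ∀ x y : ZMod 2,
    decide (x + y = 1) = Bool.xor (decide (x = 1)) (decide (y = 1)) := by decide

theorem conv0 (d : ℕ → ZMod 2) :
    ∑ j ∈ range (0 + 1), coeff j E * d (0 - j) = d 0 := by
  simp [Finset.sum_range_succ, coeffE]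

theorem conv1 (d : ℕ → ZMod 2) :
    ∑ j ∈ range (1 + 1), coeff j E * d (1 - j) = d 1 + d 0 := by
  simp [Finset.sum_range_succ, coeffE]

theorem conv2 (d : ℕ → ZMod 2) :
    ∑ j ∈ range (2 + 1), coeff j E * d (2 - j) = d 2 + d 1 + d 0 := by
  simp [Finset.sum_range_succ, coeffE]

theorem conv3 (d : ℕ → ZMod 2) :
    ∑ j ∈ range (3 + 1), coeff j E * d (3 - j) = d 3 + d 2 + d 1 := by
  simp [Finset.sum_range_succ, coeffE]

theorem conv4 (d : ℕ → ZMod 2) :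
    ∑ j ∈ range (4 + 1), coeff j E * d (4 - j) = d 4 + d 3 + d 2 := by
  simp [Finset.sum_range_succ, coeffE]

theorem conv5 (d : ℕ → ZMod 2) :
    ∑ j ∈ range (5 + 1), coeff j E * d (5 - j) = d 5 + d 4 + d 3 + d 0 := by
  simp [Finset.sum_range_succ, coeffE]

theorem conv6 (d : ℕ → ZMod 2) :
    ∑ j ∈ range (6 + 1), coeff j E * d (6 - j) = d 6 + d 5 + d 4 + d 1 := by
  simp [Finset.sum_range_succ, coeffE]

theorem conv7 (d : ℕ → ZMod 2) :
    ∑ j ∈ range (7 + 1), coeff j E * d (7 - j) = d 7 + d 6 + d 5 + d 2 + d 0 := by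
  simp [Finset.sum_range_succ, coeffE]

theorem conv8 (d : ℕ → ZMod 2) :
    ∑ j ∈ range (8 + 1), coeff j E * d (8 - j) = d 8 + d 7 + d 6 + d 3 + d 1 := by
  simp [Finset.sum_range_succ, coeffE]

theorem conv9 (d : ℕ → ZMod 2) :
    ∑ j ∈ range (9 + 1), coeff j E * d (9 - j) = d 9 + d 8 + d 7 + d 4 + d 2 := by
  simp [Finset.sum_range_succ, coeffE]

theorem conv10 (d : ℕ → ZMod 2) :
    ∑ j ∈ range (10 + 1), coeff j E * d (10 - j) = d 10 + d 9 + d 8 + d 5 + d 3 := by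
  simp [Finset.sum_range_succ, coeffE]

theorem conv11 (d : ℕ → ZMod 2) :
    ∑ j ∈ range (11 + 1), coeff j E * d (11 - j) = d 11 + d 10 + d 9 + d 6 + d 4 := by
  simp [Finset.sum_range_succ, coeffE]

theorem bit0 {k n : ℕ} (hn : n < 2 ^ k) (t : ℕ) :
    w k t n 0 = w k (t + 2 ^ k) n 0 := by
  unfold w
  rw [relE hn t 0, conv0 (fun i => c (t + 2 ^ k) (n + 2 ^ k * i))]

theorem bit1 {k n : ℕ} (hn : n < 2 ^ k) (t : ℕ) :
    w k t n 1 = Bool.xor (w k (t + 2 ^ k) n 1) (w k (t + 2 ^ k) n 0) := by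
  unfold w
  rw [relE hn t 1, conv1 (fun i => c (t + 2 ^ k) (n + 2 ^ k * i))]
  simp only [bxor]

theorem bit2 {k n : ℕ} (hn : n < 2 ^ k) (t : ℕ) :
    w k t n 2 = Bool.xor (Bool.xor (w k (t + 2 ^ k) n 2) (w k (t + 2 ^ k) n 1)) (w k (t + 2 ^ k) n 0) := by
  unfold w
  rw [relE hn t 2, conv2 (fun i => c (t + 2 ^ k) (n + 2 ^ k * i))]
  simp only [bxor]

theorem bit3 {k n : ℕ} (hn : n < 2 ^ k) (t : ℕ) :
    w k t n 3 = Bool.xor (Bool.xor (w k (t + 2 ^ k) n 3) (w k (t + 2 ^ k) n 2)) (w k (t + 2 ^ k) n 1) := by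
  unfold w
  rw [relE hn t 3, conv3 (fun i => c (t + 2 ^ k) (n + 2 ^ k * i))]
  simp only [bxor]

theorem bit4 {k n : ℕ} (hn : n < 2 ^ k) (t : ℕ) :
    w k t n 4 = Bool.xor (Bool.xor (w k (t + 2 ^ k) n 4) (w k (t + 2 ^ k) n 3)) (w k (t + 2 ^ k) n 2) := by
  unfold w
  rw [relE hn t 4, conv4 (fun i => c (t + 2 ^ k) (n + 2 ^ k * i))]
  simp only [bxor]

theorem bit5 {k n : ℕ} (hn : n < 2 ^ k) (t : ℕ) :
    w k t n 5 = Bool.xor (Bool.xor (Bool.xor (w k (t + 2 ^ k) n 5) (w k (t + 2 ^ k) n 4)) (w k (t + 2 ^ k) n 3)) (w k (t + 2 ^ k) n 0) := by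
  unfold w
  rw [relE hn t 5, conv5 (fun i => c (t + 2 ^ k) (n + 2 ^ k * i))]
  simp only [bxor]

theorem bit6 {k n : ℕ} (hn : n < 2 ^ k) (t : ℕ) :
    w k t n 6 = Bool.xor (Bool.xor (Bool.xor (w k (t + 2 ^ k) n 6) (w k (t + 2 ^ k) n 5)) (w k (t + 2 ^ k) n 4)) (w k (t + 2 ^ k) n 1) := by
  unfold w
  rw [relE hn t 6, conv6 (fun i => c (t + 2 ^ k) (n + 2 ^ k * i))]
  simp only [bxor]

theorem bit7 {k n : ℕ} (hn : n < 2 ^ k) (t : ℕ) :
    w k t n 7 = Bool.xor (Bool.xor (Bool.xor (Bool.xor (w k (t + 2 ^ k) n 7) (w k (t + 2 ^ k) n 6)) (w k (t + 2 ^ k) n 5)) (w k (t + 2 ^ k) n 2)) (w k (t + 2 ^ k) n 0) := by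
  unfold w
  rw [relE hn t 7, conv7 (fun i => c (t + 2 ^ k) (n + 2 ^ k * i))]
  simp only [bxor]

theorem bit8 {k n : ℕ} (hn : n < 2 ^ k) (t : ℕ) :
    w k t n 8 = Bool.xor (Bool.xor (Bool.xor (Bool.xor (w k (t + 2 ^ k) n 8) (w k (t + 2 ^ k) n 7)) (w k (t + 2 ^ k) n 6)) (w k (t + 2 ^ k) n 3)) (w k (t + 2 ^ k) n 1) := by
  unfold w
  rw [relE hn t 8, conv8 (fun i => c (t + 2 ^ k) (n + 2 ^ k * i))]
  simp only [bxor]

theorem bit9 {k n : ℕ} (hn : n < 2 ^ k) (t : ℕ) :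
    w k t n 9 = Bool.xor (Bool.xor (Bool.xor (Bool.xor (w k (t + 2 ^ k) n 9) (w k (t + 2 ^ k) n 8)) (w k (t + 2 ^ k) n 7)) (w k (t + 2 ^ k) n 4)) (w k (t + 2 ^ k) n 2) := by
  unfold w
  rw [relE hn t 9, conv9 (fun i => c (t + 2 ^ k) (n + 2 ^ k * i))]
  simp only [bxor]

theorem bit10 {k n : ℕ} (hn : n < 2 ^ k) (t : ℕ) :
    w k t n 10 = Bool.xor (Bool.xor (Bool.xor (Bool.xor (w k (t + 2 ^ k) n 10) (w k (t + 2 ^ k) n 9)) (w k (t + 2 ^ k) n 8)) (w k (t + 2 ^ k) n 5)) (w k (t + 2 ^ k) n 3) := by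
  unfold w
  rw [relE hn t 10, conv10 (fun i => c (t + 2 ^ k) (n + 2 ^ k * i))]
  simp only [bxor]

theorem bit11 {k n : ℕ} (hn : n < 2 ^ k) (t : ℕ) :
    w k t n 11 = Bool.xor (Bool.xor (Bool.xor (Bool.xor (w k (t + 2 ^ k) n 11) (w k (t + 2 ^ k) n 10)) (w k (t + 2 ^ k) n 9)) (w k (t + 2 ^ k) n 6)) (w k (t + 2 ^ k) n 4) := by
  unfold w
  rw [relE hn t 11, conv11 (fun i => c (t + 2 ^ k) (n + 2 ^ k * i))]
  simp only [bxor]

/-- the weight of the window given by `a 0, …, a 5` -/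
def ph6 (a : ℕ → Bool) : ℕ := ph (a 0) (a 1) (a 2) (a 3) (a 4) (a 5)

theorem local_step (a d : ℕ → Bool) (h0 : a 0 = d 0)
    (h1 : a 1 = Bool.xor (d 1) (d 0))
    (h2 : a 2 = Bool.xor (Bool.xor (d 2) (d 1)) (d 0))
    (h3 : a 3 = Bool.xor (Bool.xor (d 3) (d 2)) (d 1))
    (h4 : a 4 = Bool.xor (Bool.xor (d 4) (d 3)) (d 2))
    (h5 : a 5 = Bool.xor (Bool.xor (Bool.xor (d 5) (d 4)) (d 3)) (d 0))
    (h6 : a 6 = Bool.xor (Bool.xor (Bool.xor (d 6) (d 5)) (d 4)) (d 1))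
    (h7 : a 7 = Bool.xor (Bool.xor (Bool.xor (Bool.xor (d 7) (d 6)) (d 5)) (d 2)) (d 0))
    (h8 : a 8 = Bool.xor (Bool.xor (Bool.xor (Bool.xor (d 8) (d 7)) (d 6)) (d 3)) (d 1))
    (h9 : a 9 = Bool.xor (Bool.xor (Bool.xor (Bool.xor (d 9) (d 8)) (d 7)) (d 4)) (d 2))
    (h10 : a 10 = Bool.xor (Bool.xor (Bool.xor (Bool.xor (d 10) (d 9)) (d 8)) (d 5)) (d 3))
    (h11 : a 11 = Bool.xor (Bool.xor (Bool.xor (Bool.xor (d 11) (d 10)) (d 9)) (d 6)) (d 4)) :
    264 * (ph6 a * ph6 a) ≤ 100 * ((ph6 (fun i => a (2 * i)) + ph6 fun i => a (2 * i + 1)) *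
      (ph6 (fun i => d (2 * i)) + ph6 fun i => d (2 * i + 1))) ∧
    ph6 a ≤ ph6 (fun i => a (2 * i)) + ph6 (fun i => a (2 * i + 1)) ∧
    ph6 a ≤ ph6 (fun i => d (2 * i)) + ph6 (fun i => d (2 * i + 1)) := by
  have h := cert (d 0) (d 1) (d 2) (d 3) (d 4) (d 5) (d 6) (d 7) (d 8) (d 9) (d 10) (d 11)
  simp only [ok, Bool.and_eq_true, Nat.ble_eq] at h
  unfold ph6
  norm_num only
  rw [h0, h1, h2, h3, h4, h5, h6, h7, h8, h9, h10, h11]
  exact h

/-- the weight of a window -/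
noncomputable def phw (k t n : ℕ) : ℕ := ph6 (w k t n)

theorem w_child0 (k t n i : ℕ) : w (k + 1) t n i = w k t n (2 * i) := by
  unfold w
  rw [pow_succ, mul_assoc]

theorem w_child1 (k t n i : ℕ) : w (k + 1) t (n + 2 ^ k) i = w k t n (2 * i + 1) := by
  unfold w
  have : n + 2 ^ k + 2 ^ (k + 1) * i = n + 2 ^ k * (2 * i + 1) := by ring
  rw [this]

theorem phw_step {k n : ℕ} (hn : n < 2 ^ k) (t : ℕ) :
    264 * (phw k t n * phw k t n) ≤ 100 * ((phw (k + 1) t n + phw (k + 1) t (n + 2 ^ k)) *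
      (phw (k + 1) (t + 2 ^ k) n + phw (k + 1) (t + 2 ^ k) (n + 2 ^ k))) ∧
    phw k t n ≤ phw (k + 1) t n + phw (k + 1) t (n + 2 ^ k) ∧
    phw k t n ≤ phw (k + 1) (t + 2 ^ k) n + phw (k + 1) (t + 2 ^ k) (n + 2 ^ k) := by
  have e0 : ∀ t', phw (k + 1) t' n = ph6 fun i => w k t' n (2 * i) := fun t' => by
    unfold phw; congr 1; funext i; exact w_child0 k t' n i
  have e1 : ∀ t', phw (k + 1) t' (n + 2 ^ k) = ph6 fun i => w k t' n (2 * i + 1) := fun t' => by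
    unfold phw; congr 1; funext i; exact w_child1 k t' n i
  rw [e0, e0, e1, e1]
  exact local_step (w k t n) (w k (t + 2 ^ k) n) (bit0 hn t) (bit1 hn t) (bit2 hn t) (bit3 hn t)
    (bit4 hn t) (bit5 hn t) (bit6 hn t) (bit7 hn t) (bit8 hn t) (bit9 hn t) (bit10 hn t)
    (bit11 hn t)

theorem phw_le (k t n : ℕ) : phw k t n ≤ 10000 := ph_le _ _ _ _ _ _

theorem phw_pos {k t n : ℕ} (h : c t n = 1) : 0 < phw k t n := by
  unfold phw ph6
  have : w k t n 0 = true := by unfold w; rw [mul_zero, add_zero, h]; rfl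
  rw [this]
  exact ph_pos _ _ _ _ _

/-- a window of positive weight contains an odd number; the first one is the same for all
exponents in the residue class -/
theorem exists_of_phw {k n : ℕ} (hn : n < 2 ^ k) {t : ℕ} (h : phw k t n ≠ 0) :
    ∃ v < 6, ∀ s, c (t + 2 ^ k * s) (n + 2 ^ k * v) = 1 := by
  have hex : ∃ v, v < 6 ∧ c t (n + 2 ^ k * v) = 1 := by
    by_contra hno
    push Not at hno
    apply h
    unfold phw ph6
    have : ∀ v < 6, w k t n v = false := fun v hv => by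
      unfold w
      exact decide_eq_false (hno v hv)
    rw [this 0 (by norm_num), this 1 (by norm_num), this 2 (by norm_num), this 3 (by norm_num),
      this 4 (by norm_num), this 5 (by norm_num)]
    exact ph_zero
  classical
  obtain ⟨h1, h2⟩ := Nat.find_spec hex
  refine ⟨Nat.find hex, h1, fun s => ?_⟩
  rw [relP hn, Finset.sum_range_succ', Nat.sub_zero, c_zero, one_mul, h2]
  rw [Finset.sum_eq_zero, zero_add]
  intro j hj
  have hj' := Finset.mem_range.1 hj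
  have h3 : Nat.find hex - (j + 1) < Nat.find hex := by omega
  have h4 := Nat.find_min hex h3
  have h5 : c t (n + 2 ^ k * (Nat.find hex - (j + 1))) ≠ 1 := fun h6 => h4 ⟨by omega, h6⟩
  have h6 : ∀ x : ZMod 2, x ≠ 1 → x = 0 := by decide
  rw [h6 _ h5, mul_zero]

end Pool.Agent.L7h67.AE
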